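import Pool.Agent.Lib.MP_adc574_ag_CC.Defs

/-!
# Abelian covers of the projective line: definitions

`E` is a field, `L` a field extension of `E` and `x` an element of `L` such that `L` is finite over `E(x)`: the
function field of a smooth projective curve `X` with a map `x` to the projective line.
-/

set_option autoImplicit false

namespace MPadcCA

open Polynomial

universe u

/-- The data of an abelian cover of the projective line: the curve with the equations
`y_j ^ m = (x - a 0) ^ (e j 0) * … * (x - a n) ^ (e j n)` for `j < r`. -/
structure AbCover (A : Type u) where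
  /-- the exponent of the group -/
  m : ℕ
  /-- the number of the equations -/
  r : ℕ
  /-- the number of the points is `n + 1` -/
  n : ℕ
  /-- the points of the projective line -/
  a : Fin (n + 1) → A
  /-- the exponents of the equations -/
  e : Fin r → Fin (n + 1) → ℕ

/-- The conditions: the points are different and the cover is not ramified over infinity. -/
structure AbCover.Ok {A : Type u} (c : AbCover A) : Prop where
  two : 2 ≤ c.m
  inj : Function.Injective c.a
  dvd : ∀ j, c.m ∣ ∑ i, c.e j i

/-- The right side of the equation `j`. -/
noncomputable def AbCover.poly {A : Type u} [CommRing A] (c : AbCover A) (j : Fin c.r) : Polynomial A :=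
  ∏ i, (X - C (c.a i)) ^ c.e j i

/-- Base change. -/
def AbCover.map {A B : Type u} (φ : A → B) (c : AbCover A) : AbCover B where
  m := c.m
  r := c.r
  n := c.n
  a := fun i => φ (c.a i)
  e := c.e

/-- The function `y^χ = ∏ j, y_j ^ (χ j)` has the equation `z ^ m = ∏ i, (x - a i) ^ (expo c χ i)`, up to `m`-th
powers; it generates a cyclic quotient cover, and all the cyclic quotient covers are of this form. The cover is
ramified over `a i` if and only if this exponent is not zero. -/
def AbCover.expo {A : Type u} (c : AbCover A) (χ : Fin c.r → ℕ) (i : Fin (c.n + 1)) : ℕ :=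
  (∑ j, χ j * c.e j i) % c.m

/-- The point `a o` is free from the points `a i`, `i ∈ S`: after a Möbius transformation the points `a i`,
`i ∈ S`, are elements of a subfield of `k` over which `a o` is transcendental. -/
def Free {k : Type u} [Field k] {n : ℕ} (a : Fin (n + 1) → k) (S : Set (Fin (n + 1)))
    (o : Fin (n + 1)) : Prop :=
  ∃ (κ : Subfield k) (α β γ δ : k), α * δ - β * γ ≠ 0 ∧ γ * a o + δ ≠ 0 ∧
    Transcendental κ ((α * a o + β) / (γ * a o + δ)) ∧
    ∀ i ∈ S, γ * a i + δ ≠ 0 ∧ (α * a i + β) / (γ * a i + δ) ∈ κ

/-- Every cyclic quotient cover has at most three branch points, or one of its branch points is free from the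
others. -/
def AbCover.FewOrFree {k : Type u} [Field k] (c : AbCover k) : Prop :=
  ∀ χ : Fin c.r → ℕ, (Finset.univ.filter fun i => c.expo χ i ≠ 0).card ≤ 3 ∨
    ∃ o, c.expo χ o ≠ 0 ∧ Free c.a {i | i ≠ o ∧ c.expo χ i ≠ 0} o

/-- `L = E(x, y_1, …, y_r)` is a function field of the cover. -/
structure AbCover.IsFunctionField {E L : Type u} [Field E] [Field L] [Algebra E L] (c : AbCover E)
    (x : L) (y : Fin c.r → L) : Prop where
  /-- `x` is a variable -/
  trans : Transcendental E x
  /-- the equations -/
  eq : ∀ j, y j ^ c.m = aeval x (c.poly j)
  /-- `L` is generated by `x` and the `y_j` -/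
  gen : IntermediateField.adjoin E (insert x (Set.range y)) = ⊤

/-- The smooth projective curves over the field `E` with the equations of the cover are ordinary in the sense of
Bloch and Kato. -/
def AbCover.IsOrdinary {E : Type u} [Field E] (c : AbCover E) : Prop :=
  (∃ (L : Type u) (_ : Field L) (_ : Algebra E L) (x : L) (y : Fin c.r → L), c.IsFunctionField x y) ∧
    ∀ (L : Type u) [Field L] [Algebra E L] (x : L) (y : Fin c.r → L), c.IsFunctionField x y →
      MPadcCC.IsOrdinary E x

/-- At the point of `Spec A` which is given by the surjection `φ` from `A` to the field `E` all the covers have good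
reduction (the exponents of their groups are not zero in `E` and their branch points stay different) and are
ordinary. -/
def OrdinaryAt {A : Type u} [CommRing A] {ι : Type} (c : ι → AbCover A) {E : Type u} [Field E]
    (φ : A →+* E) : Prop :=
  ∀ l, ((c l).m : E) ≠ 0 ∧ Function.Injective ((c l).map φ).a ∧ ((c l).map φ).IsOrdinary

/-- Dense ordinary reduction of finitely many covers: for every `b ≠ 0` in `A` and all large primes `p` which are
`1` modulo the exponents `m` there is a closed point `s` of `Spec A` of residue characteristic `p` with `b ≠ 0` at
`s` such that at `s` all the covers have good reduction and are ordinary. -/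
def DenseOrdinaryReduction {A : Type u} [CommRing A] {ι : Type} (c : ι → AbCover A) : Prop :=
  ∀ b : A, b ≠ 0 → ∃ p₀ : ℕ, ∀ p : ℕ, p.Prime → p₀ < p → (∀ l, p ≡ 1 [MOD (c l).m]) →
    ∃ (E : Type u) (_ : Field E) (φ : A →+* E), Finite E ∧ CharP E p ∧ Function.Surjective φ ∧
      φ b ≠ 0 ∧ OrdinaryAt c φ

end MPadcCA
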