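import Pool.Agent.Lib.MP_adc574_ag_CA.GDefs

/-!
# Leaf GA: the cyclic quotients
-/

set_option autoImplicit false

namespace MPadcCA

open Polynomial MPadcCC

universe u

/-- PROOF. `Nat.mod_lt`; `m` divides `∑ i ∑ j χ_j e_(j,i) = ∑ j χ_j ∑ i e_(j,i)` and `Finset.sum_nat_mod` (as in `sum_mod` of leaf F0 of the folder MP_adc574_ag_CC). -/
theorem weak_cyc {A : Type u} (c : AbCover A) (hc : c.Ok) (χ : Fin c.r → ℕ) : Weak (c.cyc χ) :=
  { two := hc.two
    inj := hc.inj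
    lt := fun i => Nat.mod_lt _ (lt_of_lt_of_le (by norm_num) hc.two)
    dvd := by
      show c.m ∣ ∑ i, (∑ j, χ j * c.e j i) % c.m
      apply Nat.dvd_of_mod_eq_zero
      rw [← Finset.sum_nat_mod, Finset.sum_comm]
      apply Nat.mod_eq_zero_of_dvd
      refine Finset.dvd_sum fun j _ => ?_
      rw [← Finset.mul_sum]
      exact (hc.dvd j).mul_left _ }

/-- PROOF. `((m - 1) * (s % m)) % m = ((m - 1) * s) % m`, `(∑ j, (m - 1) * χ j * e j i) = (m - 1) * ∑ j, χ j * e j i`. -/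
theorem expo_compl {A : Type u} (c : AbCover A) (χ : Fin c.r → ℕ) (i : Fin (c.n + 1)) :
    (c.m - 1) * c.expo χ i % c.m = c.expo (fun j => (c.m - 1) * χ j) i := by
  show (c.m - 1) * ((∑ j, χ j * c.e j i) % c.m) % c.m = (∑ j, (c.m - 1) * χ j * c.e j i) % c.m
  rw [Nat.mul_mod_mod, Finset.mul_sum]
  congr 1
  exact Finset.sum_congr rfl fun j _ => (mul_assoc _ _ _).symm

/-- PROOF. `1 * r / e = 0` because `r < e`, so `Qx c 1 = 1`. -/
theorem yy_one {E L : Type u} [Field E] [Field L] [Algebra E L] (c : Cover E) (hc : Weak c)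
    (x z : L) : yy c x z 1 = z := by
  have h : Qx c 1 = 1 := by
    rw [Qx, gg]
    refine Finset.prod_eq_one fun i _ => ?_
    rw [one_mul, Nat.div_eq_of_lt (hc.lt i), pow_zero]
  rw [yy, h, map_one, pow_one, div_one]

/-- PROOF. `y j ≠ 0` because `y j ^ m = aeval x (c.poly j) ≠ 0`. -/
theorem y_ne_zero' {E L : Type u} [Field E] [Field L] [Algebra E L] {c : AbCover E} (hc : c.Ok)
    {x : L} {y : Fin c.r → L} (hf : c.IsFunctionField x y) (j : Fin c.r) : y j ≠ 0 := by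
  intro h
  have h1 := hf.eq j
  have hm : c.m ≠ 0 := by
    have := hc.two
    omega
  rw [h, zero_pow hm] at h1
  have h2 : (c.poly j).Monic := monic_prod_of_monic _ _ fun i _ => (monic_X_sub_C (c.a i)).pow (c.e j i)
  exact h2.ne_zero (transcendental_iff.1 hf.trans _ h1.symm)

/-- PROOF. `w = (aeval x (∏ i, (X - C (a i)) ^ ((∑ j, χ j * e j i) / m)))⁻¹`: `(∏ j, y j ^ χ j) ^ m = ∏ i, (x - a i) ^ (∑ j, χ j * e j i)` and `Nat.div_add_mod`. (`Finset.prod_comm`, `Finset.prod_pow_eq_pow_sum`.) -/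
theorem exists_isEq {E L : Type u} [Field E] [Field L] [Algebra E L] {c : AbCover E} (hc : c.Ok)
    {x : L} {y : Fin c.r → L} (hf : c.IsFunctionField x y) (χ : Fin c.r → ℕ) :
    ∃ w ∈ IntermediateField.adjoin E {x}, w ≠ 0 ∧ IsEq (c.cyc χ) x (w * ∏ j, y j ^ χ j) := by
  have hQm : (gg c.a fun i => (∑ j, χ j * c.e j i) / c.m).Monic := monic_gg _ _
  have hQ0 : aeval x (gg c.a fun i => (∑ j, χ j * c.e j i) / c.m) ≠ 0 := fun h =>
    hQm.ne_zero (transcendental_iff.1 hf.trans _ h)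
  have hpoly : ∏ j, c.poly j ^ χ j = (gg c.a fun i => (∑ j, χ j * c.e j i) / c.m) ^ c.m * (c.cyc χ).poly := by
    have h1 : (c.cyc χ).poly = gg c.a fun i => (∑ j, χ j * c.e j i) % c.m := rfl
    have h2 : ∀ j, c.poly j = gg c.a (c.e j) := fun j => rfl
    rw [h1, gg_pow, gg_mul]
    have h3 : (fun i => c.m * ((∑ j, χ j * c.e j i) / c.m) + (∑ j, χ j * c.e j i) % c.m) =
        fun i => ∑ j, χ j * c.e j i := by
      funext i
      exact Nat.div_add_mod _ _
    rw [h3, gg]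
    calc ∏ j, c.poly j ^ χ j = ∏ j, ∏ i, (X - C (c.a i)) ^ (χ j * c.e j i) := by
          refine Finset.prod_congr rfl fun j _ => ?_
          rw [h2, gg_pow, gg]
      _ = ∏ i, ∏ j, (X - C (c.a i)) ^ (χ j * c.e j i) := Finset.prod_comm
      _ = _ := Finset.prod_congr rfl fun i _ => Finset.prod_pow_eq_pow_sum _ _ _
  refine ⟨(aeval x (gg c.a fun i => (∑ j, χ j * c.e j i) / c.m))⁻¹, inv_mem ?_, inv_ne_zero hQ0,
    { trans := hf.trans
      eq := ?_ }⟩
  · exact IntermediateField.algebra_adjoin_le_adjoin E {x} (aeval_mem_adjoin_singleton E x)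
  · show ((aeval x (gg c.a fun i => (∑ j, χ j * c.e j i) / c.m))⁻¹ * ∏ j, y j ^ χ j) ^ c.m = _
    have h4 : (∏ j, y j ^ χ j) ^ c.m = aeval x (∏ j, c.poly j ^ χ j) := by
      rw [map_prod, ← Finset.prod_pow]
      refine Finset.prod_congr rfl fun j _ => ?_
      rw [map_pow, ← hf.eq j, ← pow_mul, ← pow_mul, mul_comm]
    rw [mul_pow, h4, hpoly, map_mul, map_pow, inv_pow, inv_mul_cancel_left₀ (pow_ne_zero _ hQ0)]

end MPadcCA
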