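import Pool.Agent.Lib.MP_adc574_ag_CA.GDefs

/-!
# Leaf GB1: the Galois group
-/

set_option autoImplicit false

namespace MPadcCA

open Polynomial MPadcCC

universe u

private theorem GB1_key {E K L : Type u} [Field E] [Field K] [Field L] [Algebra E K] [Algebra K L] [Algebra E L]
    [IsScalarTower E K L] {m r : ℕ} (hm : 0 < m) (y : Fin r → L) (a : Fin r → K) (ha : ∀ j, a j ≠ 0)
    (hy : ∀ j, y j ^ m = algebraMap K L (a j)) (hgen : IntermediateField.adjoin K (Set.range y) = ⊤)
    (hmE : (m : E) ≠ 0) {ζ : E} (hζ : IsPrimitiveRoot ζ m) :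
    Finite (L ≃ₐ[K] L) ∧ (∀ f : L, (∀ σ : L ≃ₐ[K] L, σ f = f) → f ∈ Set.range (algebraMap K L)) ∧
      (∀ (σ : L ≃ₐ[K] L) (j : Fin r), ∃ s : ℕ, σ (y j) = algebraMap E L (ζ ^ s) * y j) ∧
      ((Nat.card (L ≃ₐ[K] L) : ℕ) : E) ≠ 0 := by
  classical
  have : NeZero m := ⟨hm.ne'⟩
  have hζL : IsPrimitiveRoot (algebraMap E L ζ) m := hζ.map_of_injective (algebraMap E L).injective
  have hmK : (m : K) ≠ 0 := by
    intro h
    apply hmE
    apply (algebraMap E K).injective
    rw [map_natCast, map_zero, h]
  have hy0 : ∀ j, y j ≠ 0 := by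
    intro j h
    have h1 := hy j
    rw [h, zero_pow hm.ne'] at h1
    exact ha j ((algebraMap K L).injective (by rw [← h1, map_zero]))
  have hP0 : ∀ j, (X ^ m - C (a j) : K[X]) ≠ 0 := fun j => X_pow_sub_C_ne_zero hm _
  obtain ⟨P, hP⟩ : ∃ P : K[X], P = ∏ j, (X ^ m - C (a j)) := ⟨_, rfl⟩
  have hPne : P ≠ 0 := by
    rw [hP]
    exact Finset.prod_ne_zero_iff.2 fun j _ => hP0 j
  have hsplit : (P.map (algebraMap K L)).Splits := by
    rw [hP, Polynomial.map_prod]
    refine Splits.prod fun j _ => ?_
    rw [Polynomial.map_sub, Polynomial.map_pow, Polynomial.map_X, Polynomial.map_C]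
    exact X_pow_sub_C_splits_of_isPrimitiveRoot hζL (hy j)
  have hroot : ∀ j, aeval (y j) (X ^ m - C (a j) : K[X]) = 0 := by
    intro j
    rw [map_sub, map_pow, aeval_X, aeval_C, hy j, sub_self]
  have hroots : Set.range y ⊆ P.rootSet L := by
    rintro _ ⟨j, rfl⟩
    rw [mem_rootSet]
    refine ⟨hPne, ?_⟩
    rw [hP, map_prod]
    exact Finset.prod_eq_zero (Finset.mem_univ j) (hroot j)
  have hSF : P.IsSplittingField K L := by
    rw [isSplittingField_iff_intermediateField]
    refine ⟨hsplit, ?_⟩
    rw [eq_top_iff, ← hgen]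
    exact IntermediateField.adjoin.mono _ _ _ hroots
  have hfd : FiniteDimensional K L := IsSplittingField.finiteDimensional L P
  have hN : Normal K L := Normal.of_isSplittingField P
  have hsep : Algebra.IsSeparable K L := by
    have h0 : Algebra.IsSeparable K (IntermediateField.adjoin K (Set.range y)) := by
      rw [IntermediateField.isSeparable_adjoin_iff_isSeparable]
      rintro _ ⟨j, rfl⟩
      exact (separable_X_pow_sub_C (a j) hmK (ha j)).of_dvd (minpoly.dvd K (y j) (hroot j))
    rw [hgen] at h0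
    exact (AlgEquiv.Algebra.isSeparable_iff (IntermediateField.topEquiv (F := K) (E := L))).1 h0
  have hG : IsGalois K L := ⟨⟩
  have h3 : ∀ (σ : L ≃ₐ[K] L) (j : Fin r), ∃ s : ℕ, σ (y j) = algebraMap E L (ζ ^ s) * y j := by
    intro σ j
    have h1 : (σ (y j) / y j) ^ m = 1 := by
      rw [div_pow, ← map_pow, hy j, AlgEquiv.commutes, div_self]
      intro h
      exact ha j ((algebraMap K L).injective (by rw [h, map_zero]))
    obtain ⟨s, -, hs⟩ := hζL.eq_pow_of_pow_eq_one h1
    refine ⟨s, ?_⟩
    rw [map_pow, hs, div_mul_cancel₀ _ (hy0 j)]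
  refine ⟨inferInstance, fun f hf => (IsGalois.mem_range_algebraMap_iff_fixed f).2 hf, h3, ?_⟩
  have h4 : ∀ σ : L ≃ₐ[K] L, σ ^ m = 1 := by
    intro σ
    have h5 : ∀ j, (σ ^ m) (y j) = y j := by
      intro j
      obtain ⟨s, hs⟩ := h3 σ j
      have h6 : ∀ k : ℕ, (σ ^ k) (y j) = algebraMap E L (ζ ^ (s * k)) * y j := by
        intro k
        induction k with
        | zero => simp
        | succ k ih =>
          rw [pow_succ, AlgEquiv.mul_apply, hs, map_mul, ih,
            show (σ ^ k) (algebraMap E L (ζ ^ s)) = algebraMap E L (ζ ^ s) by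
              rw [IsScalarTower.algebraMap_apply E K L, AlgEquiv.commutes], ← mul_assoc, ← map_mul, ← pow_add]
          congr 3
          ring
      rw [h6 m, mul_comm s m, pow_mul, hζ.pow_eq_one, one_pow, map_one, one_mul]
    ext f
    have h7 : f ∈ IntermediateField.adjoin K (Set.range y) := by
      rw [hgen]
      exact IntermediateField.mem_top
    have h8 : IntermediateField.adjoin K (Set.range y) ≤
        IntermediateField.fixedField (Subgroup.zpowers (σ ^ m)) := by
      rw [IntermediateField.adjoin_le_iff]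
      rintro _ ⟨j, rfl⟩
      rw [SetLike.mem_coe, IntermediateField.mem_fixedField_iff]
      rintro τ hτ
      have h9 : Subgroup.zpowers (σ ^ m) ≤ MulAction.stabilizer (L ≃ₐ[K] L) (y j) := by
        rw [Subgroup.zpowers_le, MulAction.mem_stabilizer_iff]
        exact h5 j
      exact MulAction.mem_stabilizer_iff.1 (h9 hτ)
    exact (IntermediateField.mem_fixedField_iff _ _).1 (h8 h7) _ (Subgroup.mem_zpowers _)
  intro h
  obtain ⟨q, hq⟩ := CharP.exists E
  have h10 := (CharP.cast_eq_zero_iff E q _).1 h
  have h11 : q ≠ 0 := by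
    rintro rfl
    rw [zero_dvd_iff] at h10
    exact Nat.card_pos.ne' h10
  have h12 : q.Prime := (CharP.char_is_prime_or_zero E q).resolve_right h11
  have : Fact q.Prime := ⟨h12⟩
  obtain ⟨σ, hσ⟩ := exists_prime_orderOf_dvd_card' q h10
  have h13 : q ∣ m := by
    rw [← hσ]
    exact orderOf_dvd_of_pow_eq_one (h4 σ)
  exact hmE ((CharP.cast_eq_zero_iff E q m).2 h13)

/-- PROOF. `K = IntermediateField.adjoin E {x}`. `L` is generated over `K` by the `y j`, which are roots of the separable polynomials `Y ^ m - c.poly_j(x)` (`Polynomial.separable_X_pow_sub_C`, `m ≠ 0`, `c.poly_j(x) ≠ 0`), which split in `L` because `L` contains the primitive root `ζ`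
(`X_pow_sub_C_splits_of_isPrimitiveRoot`, `Mathlib/FieldTheory/KummerExtension.lean`). So `L` is the splitting field of the product of these polynomials (or: `IntermediateField.adjoin` of the finite set of the `y j` is separable and normal), finite and Galois over `K`
(`IsGalois.of_separable_splitting_field`, the product need not be separable: use `isSeparable_adjoin_iff`, `normal` of adjoin of roots; or `IsGalois` of a compositum). (1) `Finite` of the group. (2) The fixed field of the whole group is `K`: `IsGalois.mem_bot_iff_fixed` or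
`IsGalois.tfae`. (3) `(σ (y j)) ^ m = y j ^ m`, so `σ (y j) / y j` is a power of `ζ` (`IsPrimitiveRoot.eq_pow_of_pow_eq_one`). (4) The map from the group to `Fin c.r → rootsOfUnity` (or to `Fin c.r → ZMod m`) which is `σ ↦ (σ (y j) / y j)_j` is an injective homomorphism, so the order of the group divides
`m ^ r` (`Subgroup.card_dvd_of_injective`), which is not zero in `E`. -/
theorem exists_group {E L : Type u} [Field E] [Field L] [Algebra E L] {c : AbCover E} (hc : c.Ok)
    {x : L} {y : Fin c.r → L} (hf : c.IsFunctionField x y) (hm : (c.m : E) ≠ 0) {ζ : E}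
    (hζ : IsPrimitiveRoot ζ c.m) :
    Finite (L ≃ₐ[IntermediateField.adjoin E {x}] L) ∧
      (∀ f : L, (∀ σ : L ≃ₐ[IntermediateField.adjoin E {x}] L, σ f = f) →
        f ∈ IntermediateField.adjoin E {x}) ∧
      (∀ (σ : L ≃ₐ[IntermediateField.adjoin E {x}] L) (j : Fin c.r),
        ∃ s : ℕ, σ (y j) = algebraMap E L (ζ ^ s) * y j) ∧
      ((Nat.card (L ≃ₐ[IntermediateField.adjoin E {x}] L) : ℕ) : E) ≠ 0 := by
  have hmem : ∀ p : E[X], aeval x p ∈ IntermediateField.adjoin E {x} := by
    intro p
    have h1 : Algebra.adjoin E {x} ≤ (IntermediateField.adjoin E {x}).toSubalgebra :=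
      IntermediateField.algebra_adjoin_le_adjoin E {x}
    exact h1 (by
      rw [Algebra.adjoin_singleton_eq_range_aeval]
      exact ⟨p, rfl⟩)
  have hp0 : ∀ j, c.poly j ≠ 0 := by
    intro j
    exact (monic_prod_of_monic _ _ fun i _ => (monic_X_sub_C _).pow _).ne_zero
  have hgen : IntermediateField.adjoin (IntermediateField.adjoin E {x}) (Set.range y) = ⊤ := by
    have h1 := IntermediateField.adjoin_adjoin_left E {x} (Set.range y)
    rw [Set.singleton_union, hf.gen] at h1
    rw [eq_top_iff]
    intro f _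
    have h2 : f ∈ (IntermediateField.adjoin (IntermediateField.adjoin E {x}) (Set.range y)).restrictScalars E := by
      rw [h1]
      exact IntermediateField.mem_top
    exact h2
  have key := GB1_key (E := E) (K := IntermediateField.adjoin E {x}) (L := L) (m := c.m)
    (by have := hc.two; omega) y (fun j => ⟨aeval x (c.poly j), hmem _⟩) (by
      intro j h
      have h1 : aeval x (c.poly j) = 0 := congrArg Subtype.val h
      exact hp0 j (transcendental_iff.1 hf.trans _ h1)) (fun j => hf.eq j) hgen hm hζ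
  refine ⟨key.1, fun f hf' => ?_, key.2.2⟩
  obtain ⟨k, hk⟩ := key.2.1 f hf'
  rw [← hk]
  exact k.2

end MPadcCA
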