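import Pool.Agent.Lib.MP_adc574_ag_CA.GA
import Pool.Agent.Lib.MP_adc574_ag_CA.GB1

/-!
# Leaf GB2: the projections to the eigenspaces
-/

set_option autoImplicit false

namespace MPadcCA

open Polynomial MPadcCC

universe u

/-- the differential after an automorphism -/
private theorem GB2_D {E L : Type u} [Field E] [Field L] [Algebra E L] (σ : L ≃ₐ[E] L) {h : L}
    (hh : KaehlerDifferential.D E L h = 0) : KaehlerDifferential.D E L (σ h) = 0 := by
  by_contra hne
  obtain ⟨φ, hφ⟩ := Module.Projective.exists_dual_ne_zero L hne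
  let δ : Derivation E L L := Derivation.mk'
    (σ.symm.toLinearMap ∘ₗ (φ.restrictScalars E) ∘ₗ (KaehlerDifferential.D E L).toLinearMap ∘ₗ σ.toLinearMap) (by
      intro a b
      change σ.symm (φ (KaehlerDifferential.D E L (σ (a * b)))) =
        a • σ.symm (φ (KaehlerDifferential.D E L (σ b))) + b • σ.symm (φ (KaehlerDifferential.D E L (σ a)))
      rw [map_mul, Derivation.leibniz, map_add, map_smul, map_smul, smul_eq_mul, smul_eq_mul, map_add, map_mul,
        map_mul, σ.symm_apply_apply, σ.symm_apply_apply, smul_eq_mul, smul_eq_mul])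
  have h1 : δ h = 0 := by
    rw [← Derivation.liftKaehlerDifferential_comp_D δ h, hh, map_zero]
  have h2 : σ.symm (φ (KaehlerDifferential.D E L (σ h))) = 0 := h1
  exact hφ ((map_eq_zero_iff σ.symm σ.symm.injective).1 h2)

private theorem GB2_reg {E L : Type u} [Field E] [Field L] [Algebra E L] {x : L}
    (σ : L ≃ₐ[IntermediateField.adjoin E {x}] L) {S : Set L}
    (hS : ∀ s ∈ S, s ∈ IntermediateField.adjoin E {x}) {f : L} (hf : f ∈ reg E S) : σ f ∈ reg E S := by
  have h1 : Algebra.adjoin E S ≤ (IntermediateField.adjoin E {x}).toSubalgebra := Algebra.adjoin_le hS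
  let τ : L →ₐ[Algebra.adjoin E S] L :=
    { (σ : L →+* L) with
      commutes' := fun r => σ.commutes ⟨(r : L), h1 r.2⟩ }
  have h2 : IsIntegral (Algebra.adjoin E S) f := hf
  exact h2.map τ

private theorem GB2_orth {G E : Type u} [Group G] [Fintype G] [Field E] (χ ψ : G → E)
    (hχ : ∀ σ τ, χ (σ * τ) = χ σ * χ τ) (hψ : ∀ σ τ, ψ (σ * τ) = ψ σ * ψ τ) (h0 : ∀ σ, χ σ ≠ 0)
    (hne : χ ≠ ψ) : ∑ σ, (χ σ)⁻¹ * ψ σ = 0 := by
  obtain ⟨τ, hτ⟩ := Function.ne_iff.1 hne
  have h1 : ∑ σ, (χ σ)⁻¹ * ψ σ = ((χ τ)⁻¹ * ψ τ) * ∑ σ, (χ σ)⁻¹ * ψ σ := by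
    refine (Equiv.sum_comp (Equiv.mulLeft τ) (fun σ => (χ σ)⁻¹ * ψ σ)).symm.trans ?_
    rw [Finset.mul_sum]
    refine Finset.sum_congr rfl fun σ _ => ?_
    rw [Equiv.coe_mulLeft, hχ, hψ, mul_inv]
    ring
  by_contra hS
  have h2 : (χ τ)⁻¹ * ψ τ = 1 := by
    have h3 : ((χ τ)⁻¹ * ψ τ) * ∑ σ, (χ σ)⁻¹ * ψ σ = 1 * ∑ σ, (χ σ)⁻¹ * ψ σ := by rw [one_mul, ← h1]
    exact mul_right_cancel₀ hS h3
  apply hτ
  have h4 : χ τ * ((χ τ)⁻¹ * ψ τ) = χ τ * 1 := congrArg (fun z => χ τ * z) h2
  rw [mul_inv_cancel_left₀ (h0 τ), mul_one] at h4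
  exact h4.symm

/-- the function field is generated as an algebra -/
private theorem GB2_gen {E L : Type u} [Field E] [Field L] [Algebra E L] {c : AbCover E} (hc : c.Ok)
    {x : L} {y : Fin c.r → L} (hf : c.IsFunctionField x y) :
    Algebra.adjoin (IntermediateField.adjoin E {x}) (Set.range y) = ⊤ := by
  have h0 : 0 < c.m := by
    have := hc.two
    omega
  have halg : ∀ z ∈ Set.range y, IsAlgebraic (IntermediateField.adjoin E {x}) z := by
    rintro _ ⟨j, rfl⟩
    have h1 : aeval x (c.poly j) ∈ IntermediateField.adjoin E {x} := by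
      have h2 : aeval x (c.poly j) ∈ Algebra.adjoin E {x} := Polynomial.aeval_mem_adjoin_singleton E x
      exact IntermediateField.algebra_adjoin_le_adjoin E {x} h2
    have h3 : IsIntegral (IntermediateField.adjoin E {x}) (y j ^ c.m) := by
      rw [hf.eq j]
      exact isIntegral_algebraMap (R := IntermediateField.adjoin E {x}) (A := L) (x := ⟨_, h1⟩)
    exact (h3.of_pow h0).isAlgebraic
  have h4 := IntermediateField.adjoin_toSubalgebra_of_isAlgebraic halg
  rw [← h4]
  have h5 : IntermediateField.adjoin (IntermediateField.adjoin E {x}) (Set.range y) = ⊤ := by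
    apply IntermediateField.restrictScalars_injective E
    rw [IntermediateField.adjoin_adjoin_left, IntermediateField.restrictScalars_top]
    have h6 : ({x} ∪ Set.range y : Set L) = insert x (Set.range y) := rfl
    rw [h6, hf.gen]
  rw [h5, IntermediateField.top_toSubalgebra]

/-- PROOF. `G = L ≃ₐ[E(x)] L` of `exists_group`. For `ω : Fin r → Fin m` let `Y_ω = ∏ j, y j ^ ω j`; `σ Y_ω = χ_ω(σ) Y_ω` with `χ_ω : G → E` multiplicative (`χ_ω(σ)` is a product of powers of the `ζ ^ s`; it is unique because `Y_ω ≠ 0`), never zero. `ι` = the finite set of the functions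
`χ_ω` (`Set.range`, a subtype of `G → E`, in `Type u`), for `i = χ` choose `ω` with `χ_ω = χ` and put `χ i = ω`. `π_χ f = |G|⁻¹ ∑_σ χ(σ)⁻¹ σ(f)`.
(1) `∑_χ π_χ f = f`: both sides are additive and `E(x)`-linear, `L` is spanned over `E(x)` by the `Y_ω` (`L = E(x)(y_1, …, y_r)` and the `y j` are algebraic: `IntermediateField.adjoin_toSubalgebra_of_isAlgebraic`-like lemmas, `Algebra.adjoin`, and `y j ^ m ∈ E(x)`; the span of the `Y_ω` is closed under products),
and `π_χ Y_ω = Y_ω` if `χ = χ_ω`, and `0` otherwise (`∑_σ χ(σ)⁻¹ χ_ω(σ) = 0` for `χ ≠ χ_ω`: multiply by `χ(τ)⁻¹ χ_ω(τ) ≠ 1`). (2) `σ (π_χ f) = χ(σ) π_χ f`, so `π_χ f / Y_ω` is fixed by `G`, so it is in `E(x)` (`exists_group`). (3) `σ f` is integral over `E[S]` because `σ` fixes the elements of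
`E[S] ⊆ E(x)` (`IsIntegral.map`, or map the integral equation), `reg` is closed under sums and products with elements of `E`. (4) `σ` is an automorphism of `L` over `E`, so `D f = D g` implies `D (σ f) = D (σ g)` (`KaehlerDifferential.map E E L L` for the algebra structure given by `σ`, or: the derivation `f ↦ D (σ f)` with values in
`Ω` with the scalar multiplication twisted by `σ`; `Derivation.liftKaehlerDifferential`), and `D` is `E`-linear. -/
theorem exists_projectors {E L : Type u} [Field E] [Field L] [Algebra E L] {c : AbCover E}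
    (hc : c.Ok) {x : L} {y : Fin c.r → L} (hf : c.IsFunctionField x y) (hm : (c.m : E) ≠ 0)
    {ζ : E} (hζ : IsPrimitiveRoot ζ c.m) :
    ∃ (ι : Type u) (_ : Fintype ι) (π : ι → L → L) (χ : ι → Fin c.r → ℕ),
      (∀ f, ∑ i, π i f = f) ∧
      (∀ i f, ∃ u ∈ IntermediateField.adjoin E {x}, π i f = u * ∏ j, y j ^ χ i j) ∧
      (∀ i (S : Set L), (∀ s ∈ S, s ∈ IntermediateField.adjoin E {x}) →
        ∀ f ∈ reg E S, π i f ∈ reg E S) ∧
      (∀ i f g, KaehlerDifferential.D E L f = KaehlerDifferential.D E L g →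
        KaehlerDifferential.D E L (π i f) = KaehlerDifferential.D E L (π i g)) := by
  classical
  obtain ⟨hfin, hfix, hact, hcard⟩ := exists_group hc hf hm hζ
  have hm0 : 0 < c.m := by
    have := hc.two
    omega
  let _ : Fintype (L ≃ₐ[IntermediateField.adjoin E {x}] L) := Fintype.ofFinite _
  choose s hs using hact
  have hζ0 : ζ ≠ 0 := hζ.ne_zero (by omega)
  have hy0 : ∀ j, y j ≠ 0 := y_ne_zero' hc hf
  have hE : ∀ (σ : L ≃ₐ[IntermediateField.adjoin E {x}] L) (e : E), σ (algebraMap E L e) = algebraMap E L e :=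
    fun σ e => σ.commutes (algebraMap E (IntermediateField.adjoin E {x}) e)
  have hEs : ∀ (σ : L ≃ₐ[IntermediateField.adjoin E {x}] L) (e : E) (z : L), σ (e • z) = e • σ z := by
    intro σ e z
    rw [Algebra.smul_def, map_mul, hE, ← Algebra.smul_def]
  have hK : ∀ (σ : L ≃ₐ[IntermediateField.adjoin E {x}] L) (k z : L), k ∈ IntermediateField.adjoin E {x} →
      σ (k * z) = k * σ z := by
    intro σ k z hk
    rw [map_mul]
    congr 1
    exact σ.commutes ⟨k, hk⟩
  have ham : ∀ σ j, (ζ ^ s σ j) ^ c.m = 1 := by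
    intro σ j
    rw [← pow_mul, mul_comm, pow_mul, hζ.pow_eq_one, one_pow]
  have hamul : ∀ σ τ j, ζ ^ s (σ * τ) j = ζ ^ s σ j * ζ ^ s τ j := by
    intro σ τ j
    apply (algebraMap E L).injective
    apply mul_right_cancel₀ (hy0 j)
    rw [← hs (σ * τ) j, AlgEquiv.mul_apply, hs τ j, map_mul, hE, hs σ j, map_mul]
    ring
  obtain ⟨X, hXdef⟩ : ∃ X : (Fin c.r → ℕ) → (L ≃ₐ[IntermediateField.adjoin E {x}] L) → E,
      ∀ ω σ, X ω σ = ∏ j, (ζ ^ s σ j) ^ ω j := ⟨fun ω σ => ∏ j, (ζ ^ s σ j) ^ ω j, fun _ _ => rfl⟩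
  have hXY : ∀ ω σ, σ (∏ j, y j ^ ω j) = X ω σ • ∏ j, y j ^ ω j := by
    intro ω σ
    rw [map_prod, Algebra.smul_def, hXdef, map_prod, ← Finset.prod_mul_distrib]
    refine Finset.prod_congr rfl fun j _ => ?_
    rw [map_pow, hs, mul_pow, ← map_pow]
  have hXmul : ∀ ω σ τ, X ω (σ * τ) = X ω σ * X ω τ := by
    intro ω σ τ
    rw [hXdef, hXdef, hXdef, ← Finset.prod_mul_distrib]
    refine Finset.prod_congr rfl fun j _ => ?_
    rw [hamul, mul_pow]
  have hX0 : ∀ ω σ, X ω σ ≠ 0 := by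
    intro ω σ
    rw [hXdef]
    exact Finset.prod_ne_zero_iff.2 fun j _ => pow_ne_zero _ (pow_ne_zero _ hζ0)
  have hrange : (Set.range fun ω : Fin c.r → Fin c.m => X fun j => (ω j : ℕ)).Finite := Set.finite_range _
  have hmod : ∀ ω, X ω ∈ Set.range fun ω : Fin c.r → Fin c.m => X fun j => (ω j : ℕ) := by
    intro ω
    refine ⟨fun j => ⟨ω j % c.m, Nat.mod_lt _ hm0⟩, ?_⟩
    funext σ
    change X (fun j => ω j % c.m) σ = X ω σ
    rw [hXdef, hXdef]
    exact Finset.prod_congr rfl fun j _ => (pow_eq_pow_mod _ (ham σ j)).symm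
  let _ : Fintype (Set.range fun ω : Fin c.r → Fin c.m => X fun j => (ω j : ℕ)) := hrange.fintype
  have hchoose : ∀ i : (Set.range fun ω : Fin c.r → Fin c.m => X fun j => (ω j : ℕ)),
      ∃ ω : Fin c.r → ℕ, X ω = i.1 := by
    rintro ⟨_, ω, rfl⟩
    exact ⟨fun j => ω j, rfl⟩
  choose w hw using hchoose
  obtain ⟨P, hP⟩ : ∃ P : (Set.range fun ω : Fin c.r → Fin c.m => X fun j => (ω j : ℕ)) → L → L,
      ∀ i f, P i f = (Nat.card (L ≃ₐ[IntermediateField.adjoin E {x}] L) : E)⁻¹ •
        ∑ σ : (L ≃ₐ[IntermediateField.adjoin E {x}] L), (i.1 σ)⁻¹ • σ f := ⟨_, fun _ _ => rfl⟩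
  have hPK : ∀ i (k z : L), k ∈ IntermediateField.adjoin E {x} → P i (k * z) = k * P i z := by
    intro i k z hk
    rw [hP, hP, mul_smul_comm, Finset.mul_sum]
    congr 1
    refine Finset.sum_congr rfl fun σ _ => ?_
    rw [hK σ k z hk, mul_smul_comm]
  have hPadd : ∀ i (κ : Type) (T : Finset κ) (g : κ → L), P i (∑ t ∈ T, g t) = ∑ t ∈ T, P i (g t) := by
    intro i κ T g
    simp only [hP]
    rw [← Finset.smul_sum, Finset.sum_comm]
    congr 1
    refine Finset.sum_congr rfl fun σ _ => ?_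
    rw [map_sum, Finset.smul_sum]
  have hcard' : (Nat.card (L ≃ₐ[IntermediateField.adjoin E {x}] L) : E) ≠ 0 := hcard
  have hPY : ∀ i (ω : Fin c.r → ℕ), P i (∏ j, y j ^ ω j) = if i.1 = X ω then ∏ j, y j ^ ω j else 0 := by
    intro i ω
    have h1 : P i (∏ j, y j ^ ω j) = ((Nat.card (L ≃ₐ[IntermediateField.adjoin E {x}] L) : E)⁻¹ *
        ∑ σ : (L ≃ₐ[IntermediateField.adjoin E {x}] L), (i.1 σ)⁻¹ * X ω σ) • ∏ j, y j ^ ω j := by
      rw [hP, mul_smul, Finset.sum_smul]
      congr 1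
      refine Finset.sum_congr rfl fun σ _ => ?_
      rw [hXY, mul_smul]
    rw [h1]
    split_ifs with h2
    · have h3 : ∑ σ : (L ≃ₐ[IntermediateField.adjoin E {x}] L), (i.1 σ)⁻¹ * X ω σ =
          (Nat.card (L ≃ₐ[IntermediateField.adjoin E {x}] L) : E) := by
        rw [h2, Nat.card_eq_fintype_card, Fintype.card_eq_sum_ones, Nat.cast_sum]
        refine Finset.sum_congr rfl fun σ _ => ?_
        rw [inv_mul_cancel₀ (hX0 ω σ), Nat.cast_one]
      rw [h3, inv_mul_cancel₀ hcard', one_smul]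
    · have h3 : ∑ σ : (L ≃ₐ[IntermediateField.adjoin E {x}] L), (i.1 σ)⁻¹ * X ω σ = 0 := by
        refine GB2_orth _ _ ?_ (hXmul ω) ?_ h2
        · intro σ τ
          rw [← hw i]
          exact hXmul _ _ _
        · intro σ
          rw [← hw i]
          exact hX0 _ _
      rw [h3, mul_zero, zero_smul]
  have hPσ : ∀ i f (σ : L ≃ₐ[IntermediateField.adjoin E {x}] L), σ (P i f) = i.1 σ • P i f := by
    intro i f σ
    rw [hP, hEs, map_sum, smul_comm]
    congr 1
    rw [Finset.smul_sum, ← Equiv.sum_comp (Equiv.mulLeft σ) (fun ρ => i.1 σ • ((i.1 ρ)⁻¹ • ρ f))]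
    refine Finset.sum_congr rfl fun τ _ => ?_
    rw [hEs, Equiv.coe_mulLeft, smul_smul, AlgEquiv.mul_apply]
    congr 1
    rw [← hw i, hXmul, mul_inv, ← mul_assoc, mul_inv_cancel₀ (hX0 _ _), one_mul]
  refine ⟨_, inferInstance, P, w, ?_, ?_, ?_, ?_⟩
  · intro f
    have h1 : f ∈ (⊤ : Subalgebra (IntermediateField.adjoin E {x}) L) := trivial
    rw [← GB2_gen hc hf, Algebra.adjoin_range_eq_range_aeval] at h1
    obtain ⟨q, hq⟩ := h1
    have h2 : f = ∑ d ∈ q.support, algebraMap (IntermediateField.adjoin E {x}) L (q.coeff d) *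
        ∏ j, y j ^ d j := by
      rw [← hq]
      change MvPolynomial.aeval y q = _
      rw [MvPolynomial.aeval_def, MvPolynomial.eval₂_eq']
    have h3 : ∀ i, P i f = ∑ d ∈ q.support, algebraMap (IntermediateField.adjoin E {x}) L (q.coeff d) *
        (if i.1 = X d then ∏ j, y j ^ d j else 0) := by
      intro i
      conv_lhs => rw [h2]
      rw [hPadd]
      refine Finset.sum_congr rfl fun d _ => ?_
      rw [hPK i (algebraMap (IntermediateField.adjoin E {x}) L (q.coeff d)) _ (q.coeff d).2, hPY]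
    simp only [h3]
    rw [Finset.sum_comm]
    conv_rhs => rw [h2]
    refine Finset.sum_congr rfl fun d _ => ?_
    rw [← Finset.mul_sum]
    congr 1
    rw [Finset.sum_eq_single ⟨X d, hmod d⟩]
    · rw [if_pos rfl]
    · intro i _ hi
      rw [if_neg]
      intro h
      exact hi (Subtype.ext h)
    · intro h
      exact absurd (Finset.mem_univ _) h
  · intro i f
    have hY0 : ∏ j, y j ^ w i j ≠ 0 := Finset.prod_ne_zero_iff.2 fun j _ => pow_ne_zero _ (hy0 j)
    refine ⟨P i f / ∏ j, y j ^ w i j, hfix _ fun σ => ?_, ?_⟩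
    · rw [map_div₀, hPσ, hXY, hw i, Algebra.smul_def, Algebra.smul_def]
      refine mul_div_mul_left _ _ ?_
      have h1 : i.1 σ ≠ 0 := by
        rw [← hw i]
        exact hX0 _ _
      exact fun h2 => h1 ((map_eq_zero_iff _ (algebraMap E L).injective).1 h2)
    · rw [div_mul_cancel₀ _ hY0]
  · intro i S hS f hfS
    rw [hP]
    have hE1 : ∀ (e : E) (z : L), z ∈ reg E S → e • z ∈ reg E S := by
      intro e z hz
      have h1 : IsIntegral (Algebra.adjoin E S) z := hz
      have h2 : e • z = (algebraMap E (Algebra.adjoin E S) e) • z := by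
        rw [Algebra.smul_def, Algebra.smul_def]
        rfl
      change IsIntegral (Algebra.adjoin E S) (e • z)
      rw [h2]
      exact h1.smul _
    refine hE1 _ _ ?_
    change IsIntegral (Algebra.adjoin E S) _
    refine IsIntegral.sum _ fun σ _ => ?_
    exact hE1 _ _ (GB2_reg σ hS hfS)
  · intro i f g hfg
    have h1 : ∀ σ : (L ≃ₐ[IntermediateField.adjoin E {x}] L),
        KaehlerDifferential.D E L (σ f) = KaehlerDifferential.D E L (σ g) := by
      intro σ
      have h2 : KaehlerDifferential.D E L (f - g) = 0 := by rw [map_sub, hfg, sub_self]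
      have h3 := GB2_D (σ.restrictScalars E) h2
      have h4 : (σ.restrictScalars E) (f - g) = σ f - σ g := map_sub σ f g
      rw [h4, map_sub] at h3
      exact sub_eq_zero.1 h3
    rw [hP, hP, (KaehlerDifferential.D E L).map_smul, (KaehlerDifferential.D E L).map_smul, map_sum, map_sum]
    congr 1
    refine Finset.sum_congr rfl fun σ _ => ?_
    rw [(KaehlerDifferential.D E L).map_smul, (KaehlerDifferential.D E L).map_smul, h1 σ]

end MPadcCA
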