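import Pool.Agent.Lib.MP_adc574_ag_CA.GDefs

/-!
# Leaf GC: `d x ≠ 0`
-/

set_option autoImplicit false

namespace MPadcCA

open Polynomial MPadcCC

universe u

/-- PROOF. Copy the proof of `D_x_ne_zero` of leaf F8 of the folder MP_adc574_ag_CC, with the set of the `y j` in place of `y`: `L` is generated over `E(x)` by the `y j`, which are separable (`Polynomial.separable_X_pow_sub_C`), so `L` is separable over `E(x)`
(`IntermediateField.isSeparable_adjoin_iff_isSeparable`). -/
theorem D_x_ne_zero' {E L : Type u} [Field E] [Field L] [Algebra E L] {c : AbCover E} {x : L}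
    {y : Fin c.r → L} (hf : c.IsFunctionField x y) (hm : (c.m : E) ≠ 0) :
    KaehlerDifferential.D E L x ≠ 0 := by
  classical
  let _ : Algebra E[X] L := (aeval x : E[X] →ₐ[E] L).toRingHom.toAlgebra
  have hXL : ∀ P : E[X], algebraMap E[X] L P = aeval x P := fun _ => rfl
  have : IsScalarTower E E[X] L := IsScalarTower.of_algebraMap_eq fun a => by
    rw [hXL]
    exact (aeval_C x a).symm
  have hinj : Function.Injective (algebraMap E[X] L) := transcendental_iff_injective.1 hf.trans
  let g : FractionRing E[X] →+* L := IsFractionRing.lift hinj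
  let _ : Algebra (FractionRing E[X]) L := g.toAlgebra
  have : IsScalarTower E[X] (FractionRing E[X]) L :=
    IsScalarTower.of_algebraMap_eq fun P => (IsFractionRing.lift_algebraMap hinj P).symm
  have : IsScalarTower E (FractionRing E[X]) L := IsScalarTower.of_algebraMap_eq fun a => by
    rw [IsScalarTower.algebraMap_apply E E[X] (FractionRing E[X]),
      ← IsScalarTower.algebraMap_apply E[X] (FractionRing E[X]) L, ← IsScalarTower.algebraMap_apply E E[X] L]
  have hw : ∀ j, algebraMap E[X] (FractionRing E[X]) (c.poly j) ≠ 0 := by
    intro j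
    rw [Ne, IsFractionRing.to_map_eq_zero_iff]
    unfold AbCover.poly
    exact Finset.prod_ne_zero_iff.2 fun i _ => pow_ne_zero _ (X_sub_C_ne_zero _)
  have heK : (c.m : FractionRing E[X]) ≠ 0 := by
    intro h
    apply hm
    have h1 : algebraMap E (FractionRing E[X]) (c.m : E) = 0 := by rw [map_natCast, h]
    exact (map_eq_zero _).1 h1
  have hy : ∀ j, (minpoly (FractionRing E[X]) (y j)).Separable := by
    intro j
    refine (separable_X_pow_sub_C (algebraMap E[X] (FractionRing E[X]) (c.poly j)) heK (hw j)).of_dvd (minpoly.dvd _ _ ?_)
    rw [map_sub, map_pow, aeval_X, aeval_C, ← IsScalarTower.algebraMap_apply E[X] (FractionRing E[X]) L, hXL,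
      ← hf.eq, sub_self]
  have htop : IntermediateField.adjoin (FractionRing E[X]) (Set.range y) = ⊤ := by
    have h1 : IntermediateField.adjoin E (insert x (Set.range y)) ≤
        (IntermediateField.adjoin (FractionRing E[X]) (Set.range y)).restrictScalars E := by
      rw [IntermediateField.adjoin_le_iff]
      rintro z (rfl | hz)
      · have h2 : algebraMap (FractionRing E[X]) L (algebraMap E[X] (FractionRing E[X]) X) = z := by
          rw [← IsScalarTower.algebraMap_apply E[X] (FractionRing E[X]) L, hXL, aeval_X]
        rw [SetLike.mem_coe, IntermediateField.mem_restrictScalars, ← h2]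
        exact IntermediateField.algebraMap_mem _ _
      · rw [SetLike.mem_coe, IntermediateField.mem_restrictScalars]
        exact IntermediateField.subset_adjoin _ _ hz
    rw [hf.gen] at h1
    rw [eq_top_iff]
    intro z _
    have h5 := h1 (IntermediateField.mem_top (x := z))
    rw [IntermediateField.mem_restrictScalars] at h5
    exact h5
  have : Algebra.IsSeparable (FractionRing E[X]) L := by
    have h1 : Algebra.IsSeparable (FractionRing E[X]) (IntermediateField.adjoin (FractionRing E[X]) (Set.range y)) := by
      refine (IntermediateField.isSeparable_adjoin_iff_isSeparable _ _).2 ?_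
      rintro z ⟨j, rfl⟩
      exact hy j
    rw [htop] at h1
    exact AlgEquiv.Algebra.isSeparable IntermediateField.topEquiv
  have : Algebra.FormallyEtale (FractionRing E[X]) L := Algebra.FormallyEtale.of_isSeparable _ _
  have : Algebra.FormallyEtale E[X] (FractionRing E[X]) :=
    Algebra.FormallyEtale.of_isLocalization (nonZeroDivisors E[X])
  have : Algebra.FormallyEtale E[X] L := Algebra.FormallyEtale.comp E[X] (FractionRing E[X]) L
  intro h0
  have h1 := KaehlerDifferential.tensorKaehlerEquivOfFormallyEtale_symm_D_algebraMap E E[X] L (X : E[X])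
  have h2 : algebraMap E[X] L X = x := by rw [hXL, aeval_X]
  rw [h2, h0, map_zero] at h1
  have h3 := congrArg (fun t => TensorProduct.rid E[X] L
    (TensorProduct.map LinearMap.id (KaehlerDifferential.polynomialEquiv E).toLinearMap t)) h1
  simp only [map_zero, TensorProduct.map_tmul, LinearMap.id_apply, LinearEquiv.coe_coe,
    KaehlerDifferential.polynomialEquiv_D, derivative_X, TensorProduct.rid_tmul, one_smul] at h3
  exact zero_ne_one h3

end MPadcCA
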