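import Pool.Agent.Lib.MP_adc574_ag_CC.F11
import Pool.Agent.Lib.MP_adc574_ag_CA.GA

/-!
# Leaf GD: `H ^ 1` of one eigenspace
-/

set_option autoImplicit false

namespace MPadcCA

open Polynomial MPadcCC

universe u

/-- PROOF. As `H1_of` of leaf F13 of the folder MP_adc574_ag_CC, for one term: `z = yy c x z 1` (`yy_one`), `u * x ^ N = U(x)` (`w_comp_both` for `j = 1`), `span_core` with `m = mm c 1`, `G = Fx c 1 ^ M`: `U(x) (x ^ N)⁻¹ = A(x) + B(x⁻¹) (x ^ (mm 1))⁻¹ + s(x⁻¹) ^ p G(x)` and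
`s ^ p * G(x) * z = (s * z) ^ p` (`w_yy_pow_p`), whose differential is zero (`D_pow_p`). `g = A(x) z` (`w_mem_reg_x_of`), `h = B(x⁻¹) (x ^ (mm 1))⁻¹ z` (`w_mem_reg_inv_of`). -/
theorem H1_eigen {E L : Type u} [Field E] [Field L] [Algebra E L] {c : Cover E} {x z : L} {p : ℕ}
    [Fact p.Prime] [CharP E p] (hE : ∀ a : E, ∃ b : E, b ^ p = a) (hf : IsEq c x z)
    (hc : Weak c) {M : ℕ} (hp : p = c.e * M + 1) (hm : mm c 1 ≤ p)
    (hd : (hw p (mm c 1) (Fx c 1 ^ M)).det ≠ 0) {u : L}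
    (hu : u ∈ IntermediateField.adjoin E {x}) (h : u * z ∈ reg E {x, x⁻¹}) :
    ∃ g ∈ reg E {x}, ∃ h ∈ reg E {x⁻¹}, KaehlerDifferential.D E L (u * z) =
      KaehlerDifferential.D E L g + KaehlerDifferential.D E L h := by
  have hx : x ≠ 0 := x_ne_zero hf.trans
  have hz : yy c x z 1 = z := yy_one c hc x z
  have h0 : u * yy c x z 1 ∈ reg E {x, x⁻¹} := by rwa [hz]
  obtain ⟨U, N, hU⟩ := w_comp_both hf hc 1 hu h0
  have hu' : u = aeval x U * (x ^ N)⁻¹ := by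
    rw [← hU, mul_assoc, mul_inv_cancel₀ (pow_ne_zero N hx), mul_one]
  obtain ⟨A, B, s, h1⟩ := span_core hE hx (mm c 1) hm (Fx c 1 ^ M) hd U N
  refine ⟨aeval x A * yy c x z 1, w_mem_reg_x_of hf hc 1 A,
    aeval x⁻¹ B * (x ^ mm c 1)⁻¹ * yy c x z 1, w_mem_reg_inv_of hf hc 1 B, ?_⟩
  have h2 : yy c x z 1 ^ p = aeval x (Fx c 1 ^ M) * yy c x z 1 := by
    have h3 := w_yy_pow_p hf hc 1 M
    rw [← hp] at h3
    exact h3
  have h3 : u * z = aeval x A * yy c x z 1 + aeval x⁻¹ B * (x ^ mm c 1)⁻¹ * yy c x z 1 +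
      (aeval x⁻¹ s * yy c x z 1) ^ p := by
    rw [mul_pow, h2, hu', h1, hz]
    ring
  rw [h3, map_add, map_add, D_pow_p, add_zero]

end MPadcCA
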