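import Pool.Agent.Lib.MP_adc574_ag_CC.F0
import Pool.Agent.Lib.MP_adc574_ag_CA.ADefs

/-!
# Weak form of leaf F0: combinatorics of the exponents
-/

set_option autoImplicit false

namespace MPadcCA

open Polynomial MPadcCC

universe u

/-- The conditions on a cyclic cover which are used for one eigenspace: no condition of total ramification. -/
structure Weak {A : Type u} (c : Cover A) : Prop where
  two : 2 ≤ c.e
  inj : Function.Injective c.a
  lt : ∀ i, c.r i < c.e
  dvd : c.e ∣ ∑ i, c.r i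

/-- `x` is a variable and `y ^ e = c.poly(x)`. -/
structure IsEq {E L : Type u} [Field E] [Field L] [Algebra E L] (c : Cover E) (x y : L) : Prop where
  trans : Transcendental E x
  eq : y ^ c.e = aeval x c.poly

variable {A : Type u}

/-- PROOF. `e ∣ ∑ j r_i = j ∑ r_i` and `j r_i ≡ j r_i mod e`. -/
theorem w_sum_mod (c : Cover A) (hc : Weak c) (j : ℕ) : ∑ i, j * c.r i % c.e = c.e * mm c j := by
  have he : 0 < c.e := lt_of_lt_of_le (by norm_num) hc.two
  have h : c.e ∣ ∑ i, j * c.r i % c.e := by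
    apply Nat.dvd_of_mod_eq_zero
    rw [← Finset.sum_nat_mod, ← Finset.mul_sum]
    exact Nat.mod_eq_zero_of_dvd (hc.dvd.mul_left j)
  exact (Nat.mul_div_cancel' h).symm

theorem w_natDegree_Fx [CommRing A] [Nontrivial A] (c : Cover A) (hc : Weak c) (j : ℕ) :
    (Fx c j).natDegree = c.e * mm c j := by
  rw [Fx, natDegree_gg, w_sum_mod c hc j]

/-- PROOF. `mod_compl`. The condition is symmetric. -/
theorem w_Rx_compl [CommRing A] (c : Cover A) (hc : Weak c) (j : ℕ) (hj : j ≤ c.e) :
    Rx c (c.e - j) = Rx c j := by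
  have he : 0 < c.e := lt_of_lt_of_le (by norm_num) hc.two
  have h : (fun i => if (c.e - j) * c.r i % c.e = 0 then 0 else 1) =
      fun i => if j * c.r i % c.e = 0 then 0 else 1 := by
    funext i
    have h1 := mod_compl c.e (c.r i) j he hj
    have h2 := Nat.mod_lt (j * c.r i) he
    have h3 := Nat.mod_lt ((c.e - j) * c.r i) he
    by_cases h0 : j * c.r i % c.e = 0
    · rw [if_pos h0] at h1
      rw [if_pos h0, if_pos (by omega)]
    · rw [if_neg h0] at h1
      rw [if_neg h0, if_neg (by omega)]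
  rw [Rx, Rx, h]

/-- PROOF. Sum of `mod_compl` over `i` divided by `e`: `e (m_j + m_(e-j)) = e #{i : j r_i mod e ≠ 0}`. -/
theorem w_natDegree_Rx [CommRing A] [Nontrivial A] (c : Cover A) (hc : Weak c) (j : ℕ)
    (hj : j ≤ c.e) : (Rx c j).natDegree = mm c j + mm c (c.e - j) := by
  have he : 0 < c.e := lt_of_lt_of_le (by norm_num) hc.two
  rw [Rx, natDegree_gg]
  apply Nat.eq_of_mul_eq_mul_left he
  rw [Nat.mul_add, ← w_sum_mod c hc j, ← w_sum_mod c hc (c.e - j), Finset.mul_sum,
    ← Finset.sum_add_distrib]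
  refine Finset.sum_congr rfl fun i _ => ?_
  have h1 := mod_compl c.e (c.r i) j he hj
  by_cases h0 : j * c.r i % c.e = 0
  · rw [if_pos h0] at h1
    rw [if_pos h0]
    omega
  · rw [if_neg h0] at h1
    rw [if_neg h0]
    omega

/-- PROOF. `gg_mul`, `gg_pow`, `mod_compl`. -/
theorem w_Fx_mul_Fx [CommRing A] (c : Cover A) (hc : Weak c) (j : ℕ) (hj : j ≤ c.e) :
    Fx c j * Fx c (c.e - j) = Rx c j ^ c.e := by
  have he : 0 < c.e := lt_of_lt_of_le (by norm_num) hc.two
  rw [Fx, Fx, Rx, gg_mul, gg_pow]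
  have h : (fun i => j * c.r i % c.e + (c.e - j) * c.r i % c.e) =
      fun i => c.e * if j * c.r i % c.e = 0 then 0 else 1 := by
    funext i
    have h1 := mod_compl c.e (c.r i) j he hj
    by_cases h0 : j * c.r i % c.e = 0
    · rw [if_pos h0] at h1
      rw [if_pos h0]
      omega
    · rw [if_neg h0] at h1
      rw [if_neg h0]
      omega
  rw [h]

/-- PROOF. `r = j r / e + (e - j) r / e + (0 or 1)`. -/
theorem w_Qx_mul_Qx [CommRing A] (c : Cover A) (hc : Weak c) (j : ℕ) (hj : j ≤ c.e) :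
    Qx c j * Qx c (c.e - j) * Rx c j = c.poly := by
  have he : 0 < c.e := lt_of_lt_of_le (by norm_num) hc.two
  have h : c.poly = gg c.a c.r := rfl
  rw [h, Qx, Qx, Rx, gg_mul, gg_mul]
  have h1 : (fun i => j * c.r i / c.e + (c.e - j) * c.r i / c.e +
      if j * c.r i % c.e = 0 then 0 else 1) = c.r := by
    funext i
    have h2 := mod_compl c.e (c.r i) j he hj
    have h3 := Nat.div_add_mod (j * c.r i) c.e
    have h4 := Nat.div_add_mod ((c.e - j) * c.r i) c.e
    have h5 : (c.e - j) * c.r i + j * c.r i = c.e * c.r i := by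
      rw [← Nat.add_mul, Nat.sub_add_cancel hj]
    apply Nat.eq_of_mul_eq_mul_left he
    rw [Nat.mul_add, Nat.mul_add]
    by_cases h0 : j * c.r i % c.e = 0
    · rw [if_pos h0] at h2
      rw [if_pos h0]
      omega
    · rw [if_neg h0] at h2
      rw [if_neg h0]
      omega
  rw [h1]

end MPadcCA
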