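import Pool.Agent.Lib.MP_adc574_ag_CC.F9
import Pool.Agent.Lib.MP_adc574_ag_CA.WF1

/-!
# Weak form of leaf F9: the differential of `u(x) yy_j`
-/

set_option autoImplicit false

namespace MPadcCA

open Polynomial MPadcCC

universe u

variable {E L : Type u} [Field E] [Field L] [Algebra E L] {c : Cover E} {x y : L}

/-- PROOF. With `w_yy_eq`: `(x ^ (p N))⁻¹ * P(x) * yy_j = w ^ p * S(x)`, `w = (x ^ N * yy_(e-j))⁻¹`, `S = P * R_j * F_(e-j) ^ M`. `Derivation.leibniz`, `D_pow_p`, and `D (aeval x S) = aeval x (derivative S) • D x` (`Derivation.map_aeval`). -/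
theorem w_D_term {p : ℕ} [Fact p.Prime] [CharP E p] (hf : IsEq c x y)
    (hc : Weak c) {M : ℕ} (hp : p = c.e * M + 1) (j : ℕ) (hj : j ≤ c.e) (P : E[X]) (N : ℕ) :
    KaehlerDifferential.D E L ((x ^ (p * N))⁻¹ * aeval x P * yy c x y j) =
      ((x ^ (p * N))⁻¹ * ((yy c x y (c.e - j) ^ p)⁻¹ *
        aeval x (derivative (P * Rx c j * Fx c (c.e - j) ^ M)))) • KaehlerDifferential.D E L x := by
  have h1 : (x ^ (p * N))⁻¹ * aeval x P * yy c x y j =
      ((x ^ N * yy c x y (c.e - j))⁻¹) ^ p * aeval x (P * Rx c j * Fx c (c.e - j) ^ M) := by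
    rw [w_yy_eq hf hc j M hj, ← hp, map_mul (aeval x) (P * Rx c j), map_mul (aeval x) P,
      map_mul (aeval x) (Rx c j), inv_pow, mul_pow, ← pow_mul, mul_comm N p, mul_inv]
    ring
  rw [h1, Derivation.leibniz, D_pow_p, smul_zero, add_zero, Derivation.map_aeval, smul_smul]
  congr 1
  rw [inv_pow, mul_pow, ← pow_mul, mul_comm N p, mul_inv, mul_assoc]

end MPadcCA
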