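import Pool.Agent.Lib.MP_adc574_ag_CC.F8
import Pool.Agent.Lib.MP_adc574_ag_CA.WF6
import Pool.Agent.Lib.MP_adc574_ag_CA.WF7
import Pool.Agent.Lib.MP_adc574_ag_CA.WF9

/-!
# Abelian covers: the cyclic quotients
-/

set_option autoImplicit false

namespace MPadcCA

open Polynomial MPadcCC

universe u

/-- The data of the cyclic quotient cover of the character `χ` (it need not be connected). -/
def AbCover.cyc {A : Type u} (c : AbCover A) (χ : Fin c.r → ℕ) : Cover A where
  e := c.m
  n := c.n
  a := c.a
  r := c.expo χ

end MPadcCA
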