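import Pool.Agent.Lib.MP_adc574_ag_CC.F10
import Pool.Agent.Lib.MP_adc574_ag_CA.GA

/-!
# Leaf GE: `H ^ 0` of one eigenspace
-/

set_option autoImplicit false

namespace MPadcCA

open Polynomial MPadcCC

universe u

private theorem GE_deriv {E : Type u} [Field E] {p : ℕ} [CharP E p] (N : ℕ) (S : E[X]) :
    derivative (X ^ (p * N) * S) = X ^ (p * N) * derivative S := by
  rw [derivative_mul, derivative_X_pow]
  have h : ((p * N : ℕ) : E) = 0 := by
    rw [Nat.cast_mul, CharP.cast_eq_zero, zero_mul]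
  rw [h, C_0, zero_mul, zero_mul, zero_add]

private theorem GE_poly {E : Type u} [Field E] {c : Cover E} {p : ℕ} [Fact p.Prime] [CharP E p]
    (hc : Weak c) {M : ℕ} (hp : p = c.e * M + 1)
    (hI : Inj (mm c (c.e - 1)) (Fx c (c.e - 1) ^ M)) (N : ℕ) (A B : E[X])
    (hB : B.natDegree + mm c 1 ≤ p * N)
    (hAB : derivative (X ^ (p * N) * A * Rx c 1 * Fx c (c.e - 1) ^ M) =
      derivative (B * Rx c 1 * Fx c (c.e - 1) ^ M)) :
    derivative (A * Rx c 1 * Fx c (c.e - 1) ^ M) = 0 := by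
  have he : 0 < c.e := by have := hc.two; omega
  have hj : 1 ≤ c.e := he
  have hF : Fx c (c.e - 1) ^ M = gg c.a fun i => M * ((c.e - 1) * c.r i % c.e) := by
    rw [Fx, gg_pow]
  have hR : Rx c 1 = gg c.a fun i => if 1 * c.r i % c.e = 0 then 0 else 1 := rfl
  have hI' : Inj (mm c (c.e - 1)) (gg c.a fun i => M * ((c.e - 1) * c.r i % c.e)) := by
    rw [← hF]
    exact hI
  have h1 : ∀ i, (fun i => if 1 * c.r i % c.e = 0 then 0 else 1 : Fin (c.n + 1) → ℕ) i = 0 →
      (fun i => M * ((c.e - 1) * c.r i % c.e) : Fin (c.n + 1) → ℕ) i = 0 := by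
    intro i hi
    have h2 := mod_compl c.e (c.r i) 1 he hj
    by_cases h3 : 1 * c.r i % c.e = 0
    · rw [if_pos h3] at h2
      have h4 : (c.e - 1) * c.r i % c.e = 0 := by omega
      simp only [h4, mul_zero]
    · simp only [h3, if_false, one_ne_zero] at hi
  have h2 : ∑ i, (fun i => M * ((c.e - 1) * c.r i % c.e) : Fin (c.n + 1) → ℕ) i = mm c (c.e - 1) * (p - 1) := by
    simp only []
    rw [← Finset.mul_sum, w_sum_mod c hc (c.e - 1), hp, Nat.add_sub_cancel]
    ring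
  have h3 : ∑ i, (fun i => if 1 * c.r i % c.e = 0 then 0 else 1 : Fin (c.n + 1) → ℕ) i = mm c 1 + mm c (c.e - 1) := by
    rw [← w_natDegree_Rx c hc 1 hj, hR, natDegree_gg]
  have h4 := H0_core (p := p) c.a (fun i => if 1 * c.r i % c.e = 0 then 0 else 1)
    (fun i => M * ((c.e - 1) * c.r i % c.e)) h1 (mm c (c.e - 1)) N h2 hI' A B (by rw [h3]; omega) (by
      rw [← hR, ← hF, ← GE_deriv N, ← hAB]
      simp only [mul_assoc])
  rw [hR, hF]
  exact h4

/-- PROOF. As `H0_of` of leaf F14 of the folder MP_adc574_ag_CC, for one term: `z = yy c x z 1` (`yy_one`), `u = A(x)` (`w_comp_x`), `v * x ^ (mm c 1) = B(x⁻¹)` (`w_comp_inv`), `B'(x) = x ^ (p N) * v` with `B'.natDegree + mm c 1 ≤ p N` (`exists_reflect` of leaf F7 of the folder MP_adc574_ag_CC).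
`w_D_term` (for `P = X ^ (p N) * A` and `P = B'`) and `D x ≠ 0`: `derivative (X ^ (p N) * A * R * G) = derivative (B' * R * G)`, `R = Rx c 1`, `G = Fx c (e - 1) ^ M`; `derivative (X ^ (p N) * S) = X ^ (p N) * derivative S`. `H0_core` with `ρ i = if 1 * r_i % e = 0 then 0 else 1`,
`μ i = M * ((e - 1) * r_i % e)`, `m' = mm c (e - 1)`: `derivative (A * R * G) = 0`, so `D (A(x) z) = 0` by `w_D_term` with `N = 0`. -/
theorem H0_eigen {E L : Type u} [Field E] [Field L] [Algebra E L] {c : Cover E} {x z : L} {p : ℕ}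
    [Fact p.Prime] [CharP E p] (hf : IsEq c x z) (hc : Weak c) {M : ℕ} (hp : p = c.e * M + 1)
    (hI : Inj (mm c (c.e - 1)) (Fx c (c.e - 1) ^ M)) (hDx : KaehlerDifferential.D E L x ≠ 0)
    {u v : L} (hu : u ∈ IntermediateField.adjoin E {x}) (hv : v ∈ IntermediateField.adjoin E {x})
    (h1 : u * z ∈ reg E {x}) (h2 : v * z ∈ reg E {x⁻¹})
    (h : KaehlerDifferential.D E L (u * z) = KaehlerDifferential.D E L (v * z)) :
    KaehlerDifferential.D E L (u * z) = 0 := by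
  have he : 0 < c.e := by have := hc.two; omega
  have hj : 1 ≤ c.e := he
  have hx : x ≠ 0 := x_ne_zero hf.trans
  have hz : yy c x z 1 = z := yy_one c hc x z
  obtain ⟨A, hA⟩ := w_comp_x hf hc 1 hu (by rw [hz]; exact h1)
  obtain ⟨B, hB⟩ := w_comp_inv hf hc 1 hv (by rw [hz]; exact h2)
  set N : ℕ := B.natDegree + mm c 1 with hN
  have hp1 : 1 ≤ p := (Fact.out : p.Prime).one_lt.le
  have hNp : B.natDegree + mm c 1 ≤ p * N := by
    rw [← hN]
    nlinarith
  obtain ⟨B', hB1, hB2⟩ := exists_reflect hx B (mm c 1) (p * N) hNp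
  have hxN : x ^ (p * N) ≠ 0 := pow_ne_zero _ hx
  have hxm : x ^ mm c 1 ≠ 0 := pow_ne_zero _ hx
  have hv' : (x ^ (p * N))⁻¹ * aeval x B' = v := by
    rw [hB2, inv_mul_cancel_left₀ hxN, ← hB, mul_inv_cancel_right₀ hxm]
  have hu' : (x ^ (p * N))⁻¹ * aeval x (X ^ (p * N) * A) = u := by
    rw [aeval_mul, aeval_X_pow, inv_mul_cancel_left₀ hxN, hA]
  have hD1 := w_D_term hf hc hp 1 hj (X ^ (p * N) * A) N
  have hD2 := w_D_term hf hc hp 1 hj B' N
  rw [hu', hz] at hD1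
  rw [hv', hz] at hD2
  have hyy : yy c x z (c.e - 1) ^ p ≠ 0 := pow_ne_zero _ (w_yy_ne_zero hf hc _)
  have hS : aeval x (derivative (X ^ (p * N) * A * Rx c 1 * Fx c (c.e - 1) ^ M)) =
      aeval x (derivative (B' * Rx c 1 * Fx c (c.e - 1) ^ M)) := by
    have h3 := h
    rw [hD1, hD2, ← sub_eq_zero, ← sub_smul] at h3
    have h4 := (smul_eq_zero.1 h3).resolve_right hDx
    have h5 := mul_left_cancel₀ (inv_ne_zero hxN) (sub_eq_zero.1 h4)
    exact mul_left_cancel₀ (inv_ne_zero hyy) h5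
  have hT := (transcendental_iff_injective.mp hf.trans) hS
  have h5 := GE_poly hc hp hI N A B' hB1 hT
  have h6 := w_D_term hf hc hp 1 hj A 0
  rw [h5, map_zero, Nat.mul_zero, pow_zero, inv_one, one_mul, one_mul, mul_zero, zero_smul, hz,
    ← hA] at h6
  exact h6

end MPadcCA
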