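import Pool.Agent.Lib.MP_adc574_ag_CC.F15
import Pool.Agent.Lib.MP_adc574_ag_CA.ADefs

/-!
# Leaf GF: existence of the function field
-/

set_option autoImplicit false

namespace MPadcCA

open Polynomial MPadcCC

universe u

/-- PROOF. As `exists_functionField` of leaf F15 of the folder MP_adc574_ag_CC: in the algebraic closure of `RatFunc E` choose a root `y j` of `Y ^ m = c.poly_j(x)` for every `j`; `L = IntermediateField.adjoin E` of `x` and the `y j`. -/
theorem exists_functionField' {E : Type u} [Field E] (c : AbCover E) (hm : 0 < c.m) :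
    ∃ (L : Type u) (_ : Field L) (_ : Algebra E L) (x : L) (y : Fin c.r → L),
      c.IsFunctionField x y := by
  classical
  let Ω : Type u := AlgebraicClosure (RatFunc E)
  let x₀ : Ω := algebraMap (RatFunc E) Ω RatFunc.X
  have hx₀ : Transcendental E x₀ :=
    (transcendental_algebraMap_iff (algebraMap (RatFunc E) Ω).injective).2 RatFunc.transcendental_X
  have hex : ∀ j : Fin c.r, ∃ y₀ : Ω, y₀ ^ c.m = aeval x₀ (c.poly j) := fun j =>
    IsAlgClosed.exists_pow_nat_eq (aeval x₀ (c.poly j)) hm
  choose y₀ hy₀ using hex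
  let L : IntermediateField E Ω := IntermediateField.adjoin E (insert x₀ (Set.range y₀))
  have hx : x₀ ∈ L := IntermediateField.subset_adjoin E _ (Set.mem_insert _ _)
  have hy : ∀ j, y₀ j ∈ L := fun j =>
    IntermediateField.subset_adjoin E _ (Set.mem_insert_of_mem _ ⟨j, rfl⟩)
  refine ⟨L, inferInstance, inferInstance, ⟨x₀, hx⟩, fun j => ⟨y₀ j, hy j⟩, ?_, ?_, ?_⟩
  · rintro ⟨q, hq0, hq⟩
    refine hx₀ ⟨q, hq0, ?_⟩
    have h1 := congrArg L.val hq
    rwa [← aeval_algHom_apply, map_zero] at h1
  · intro j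
    have h1 : L.val ((⟨y₀ j, hy j⟩ : L) ^ c.m) = L.val (aeval (⟨x₀, hx⟩ : L) (c.poly j)) := by
      rw [map_pow, ← aeval_algHom_apply]
      exact hy₀ j
    exact L.val.injective h1
  · apply IntermediateField.lift_injective L
    rw [IntermediateField.lift_adjoin, IntermediateField.lift_top, Set.image_insert_eq,
      ← Set.range_comp]
    rfl

end MPadcCA
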