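import Pool.Agent.Lib.MP_adc574_ag_CC.F4
import Pool.Agent.Lib.MP_adc574_ag_CC.P6
import Pool.Agent.Lib.MP_adc574_ag_CA.GB2
import Pool.Agent.Lib.MP_adc574_ag_CA.GC
import Pool.Agent.Lib.MP_adc574_ag_CA.GD
import Pool.Agent.Lib.MP_adc574_ag_CA.GE
import Pool.Agent.Lib.MP_adc574_ag_CA.GF

/-!
# Leaf GG: the criterion
-/

set_option autoImplicit false

namespace MPadcCA

open Polynomial MPadcCC

universe u

private theorem GG_mm_le {E : Type u} (c : AbCover E) (hm : 0 < c.m) {p : ℕ} (hn : c.n + 1 ≤ p)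
    (χ : Fin c.r → ℕ) (j : ℕ) : mm (c.cyc χ) j ≤ p := by
  refine le_trans ?_ hn
  unfold mm
  have h1 : ∑ i, j * (c.cyc χ).r i % (c.cyc χ).e ≤ (c.n + 1) * c.m := by
    calc ∑ i, j * (c.cyc χ).r i % (c.cyc χ).e ≤ ∑ _i : Fin (c.n + 1), c.m :=
          Finset.sum_le_sum fun i _ => (Nat.mod_lt _ hm).le
      _ = (c.n + 1) * c.m := by simp
  exact Nat.div_le_of_le_mul (by rw [mul_comm]; exact h1)

private theorem GG_mod_one {E : Type u} (c : AbCover E) (χ : Fin c.r → ℕ) (i : Fin (c.n + 1)) :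
    1 * (c.cyc χ).r i % (c.cyc χ).e = c.expo χ i := by
  change 1 * c.expo χ i % c.m = c.expo χ i
  unfold AbCover.expo
  rw [one_mul, Nat.mod_mod]

private theorem GG_mod_compl {E : Type u} (c : AbCover E) (χ : Fin c.r → ℕ) (i : Fin (c.n + 1)) :
    (c.m - 1) * (c.cyc χ).r i % (c.cyc χ).e = c.expo (fun j => (c.m - 1) * χ j) i :=
  expo_compl c χ i

private theorem GG_det_one {E : Type u} [Field E] {p : ℕ} (c : AbCover E) (χ : Fin c.r → ℕ) {M : ℕ}
    (hd : (hw p ((∑ i, c.expo χ i) / c.m) (gg c.a fun i => M * c.expo χ i)).det ≠ 0) :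
    (hw p (mm (c.cyc χ) 1) (Fx (c.cyc χ) 1 ^ M)).det ≠ 0 := by
  have h1 : mm (c.cyc χ) 1 = (∑ i, c.expo χ i) / c.m := by
    have h2 : ∑ i : Fin (c.n + 1), 1 * (c.cyc χ).r i % (c.cyc χ).e = ∑ i, c.expo χ i :=
      Finset.sum_congr rfl fun i _ => GG_mod_one c χ i
    exact congrArg (fun t => t / c.m) h2
  have h2 : Fx (c.cyc χ) 1 ^ M = gg c.a fun i => M * c.expo χ i := by
    unfold Fx
    rw [gg_pow]
    have h3 : (fun i => M * (1 * (c.cyc χ).r i % (c.cyc χ).e)) = fun i => M * c.expo χ i :=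
      funext fun i => by rw [GG_mod_one]
    rw [h3]
    rfl
  rw [h1, h2]
  exact hd

private theorem GG_det_compl {E : Type u} [Field E] {p : ℕ} (c : AbCover E) (χ : Fin c.r → ℕ) {M : ℕ}
    (hd : (hw p ((∑ i, c.expo (fun j => (c.m - 1) * χ j) i) / c.m)
      (gg c.a fun i => M * c.expo (fun j => (c.m - 1) * χ j) i)).det ≠ 0) :
    (hw p (mm (c.cyc χ) (c.m - 1)) (Fx (c.cyc χ) (c.m - 1) ^ M)).det ≠ 0 := by
  have h1 : mm (c.cyc χ) (c.m - 1) = (∑ i, c.expo (fun j => (c.m - 1) * χ j) i) / c.m := by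
    have h2 : ∑ i : Fin (c.n + 1), (c.m - 1) * (c.cyc χ).r i % (c.cyc χ).e =
        ∑ i, c.expo (fun j => (c.m - 1) * χ j) i :=
      Finset.sum_congr rfl fun i _ => GG_mod_compl c χ i
    exact congrArg (fun t => t / c.m) h2
  have h2 : Fx (c.cyc χ) (c.m - 1) ^ M =
      gg c.a fun i => M * c.expo (fun j => (c.m - 1) * χ j) i := by
    unfold Fx
    rw [gg_pow]
    have h3 : (fun i => M * ((c.m - 1) * (c.cyc χ).r i % (c.cyc χ).e)) =
        fun i => M * c.expo (fun j => (c.m - 1) * χ j) i :=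
      funext fun i => by rw [GG_mod_compl]
    rw [h3]
    rfl
  rw [h1, h2]
  exact hd

private theorem GG_D_sum {E L : Type u} [Field E] [Field L] [Algebra E L] {ι : Type u} [Fintype ι]
    (f : ι → L) : KaehlerDifferential.D E L (∑ i, f i) = ∑ i, KaehlerDifferential.D E L (f i) :=
  map_sum _ _ _

private theorem GG_reg_sum {E L : Type u} [Field E] [Field L] [Algebra E L] {ι : Type u} [Fintype ι]
    {S : Set L} (f : ι → L) (h : ∀ i, f i ∈ reg E S) : ∑ i, f i ∈ reg E S :=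
  IsIntegral.sum f fun i _ => h i

/-- PROOF. `mm (c.cyc χ) 1 ≤ n + 1 ≤ p` (`∑ i, expo χ i ≤ (n + 1) (m - 1)`, `1 * r % m = r`). `E` is finite so the Frobenius is surjective; `exists_primitive` (leaf F4 of the folder MP_adc574_ag_CC; `c.m ≠ 0` in `E` as `p = m M + 1`). `exists_functionField'`. For a function field `L`: `exists_projectors`; for every `i` `π_i f = u_f * ∏ y^χ_i = (u_f w⁻¹) * z`,
`z = w * ∏ y^χ_i` of `exists_isEq`, so the leaves `H1_eigen` and `H0_eigen` apply to `c.cyc χ_i` (`weak_cyc`; `Fx (c.cyc χ) 1 = gg c.a (expo χ)`, `Fx (c.cyc χ) (m - 1) = gg c.a (expo ((m - 1) χ))` by `expo_compl`, `gg_pow`, `mm` the same way; `Inj` from `inj_of_det`). `H1`: `f = ∑ π_i f`, every `π_i f` is in `reg E {x, x⁻¹}`, sum the `g_i` and the `h_i`.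
`H0`: `D (π_i f) = D (π_i g)`, `π_i f ∈ reg E {x}`, `π_i g ∈ reg E {x⁻¹}`, so `D (π_i f) = 0`, and `D f = ∑ D (π_i f) = 0`. (`x⁻¹ ∈ E(x)`.) -/
theorem isOrdinary_of_det' {E : Type u} [Field E] [Finite E] {p : ℕ} [Fact p.Prime] [CharP E p]
    (c : AbCover E) (hc : c.Ok) {M : ℕ} (hp : p = c.m * M + 1) (hn : c.n + 1 ≤ p)
    (hd : ∀ χ : Fin c.r → ℕ,
      (hw p ((∑ i, c.expo χ i) / c.m) (gg c.a fun i => M * c.expo χ i)).det ≠ 0) :
    c.IsOrdinary := by
  have hm : 0 < c.m := lt_of_lt_of_le (by norm_num) hc.two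
  have hE : ∀ a : E, ∃ b : E, b ^ p = a := by
    intro a
    have hinj : Function.Injective (frobenius E p) := RingHom.injective _
    have hsurj : Function.Surjective (frobenius E p) := Finite.surjective_of_injective hinj
    obtain ⟨b, hb⟩ := hsurj a
    exact ⟨b, by simpa [frobenius_def] using hb⟩
  have hm0 : (c.m : E) ≠ 0 := by
    intro h
    have h1 : ((c.m * M + 1 : ℕ) : E) = 0 := by rw [← hp]; exact CharP.cast_eq_zero E p
    rw [Nat.cast_add, Nat.cast_mul, h, zero_mul, zero_add, Nat.cast_one] at h1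
    exact one_ne_zero h1
  obtain ⟨ζ, hζ⟩ := exists_primitive (E := E) hp hm
  refine ⟨exists_functionField' c hm, ?_⟩
  intro L _ _ x y hf
  obtain ⟨ι, _, π, χ, hsum, hform, hreg, hD⟩ := exists_projectors hc hf hm0 hζ
  have hx : x ∈ IntermediateField.adjoin E {x} := IntermediateField.mem_adjoin_simple_self E x
  have hS1 : ∀ s ∈ ({x} : Set L), s ∈ IntermediateField.adjoin E {x} := by
    intro s hs
    rw [Set.mem_singleton_iff.1 hs]
    exact hx
  have hS2 : ∀ s ∈ ({x⁻¹} : Set L), s ∈ IntermediateField.adjoin E {x} := by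
    intro s hs
    rw [Set.mem_singleton_iff.1 hs]
    exact inv_mem hx
  have hS3 : ∀ s ∈ ({x, x⁻¹} : Set L), s ∈ IntermediateField.adjoin E {x} := by
    intro s hs
    rcases hs with hs | hs
    · rw [hs]
      exact hx
    · rw [Set.mem_singleton_iff.1 hs]
      exact inv_mem hx
  refine ⟨?_, ?_⟩
  · intro f hf1 g hg1 hfg
    have hDx : KaehlerDifferential.D E L x ≠ 0 := D_x_ne_zero' hf hm0
    have hz : ∀ i, KaehlerDifferential.D E L (π i f) = 0 := by
      intro i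
      obtain ⟨u, hu, hu1⟩ := hform i f
      obtain ⟨v, hv, hv1⟩ := hform i g
      obtain ⟨w, hw, hw0, hEq⟩ := exists_isEq hc hf (χ i)
      have h1 : π i f = (u * w⁻¹) * (w * ∏ j, y j ^ χ i j) := by
        rw [hu1]
        field_simp
      have h2 : π i g = (v * w⁻¹) * (w * ∏ j, y j ^ χ i j) := by
        rw [hv1]
        field_simp
      have h3 := hreg i {x} hS1 f hf1
      have h4 := hreg i {x⁻¹} hS2 g hg1
      have h5 := hD i f g hfg
      rw [h1] at h3 h5 ⊢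
      rw [h2] at h4 h5
      exact H0_eigen hEq (weak_cyc c hc (χ i)) hp
        (inj_of_det (GG_mm_le c hm hn (χ i) _) _ (GG_det_compl c (χ i) (hd _))) hDx
        (mul_mem hu (inv_mem hw)) (mul_mem hv (inv_mem hw)) h3 h4 h5
    rw [← hsum f, GG_D_sum]
    exact Finset.sum_eq_zero fun i _ => hz i
  · intro f hf1
    have hz : ∀ i, ∃ g ∈ reg E {x}, ∃ h ∈ reg E {x⁻¹}, KaehlerDifferential.D E L (π i f) =
        KaehlerDifferential.D E L g + KaehlerDifferential.D E L h := by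
      intro i
      obtain ⟨u, hu, hu1⟩ := hform i f
      obtain ⟨w, hw, hw0, hEq⟩ := exists_isEq hc hf (χ i)
      have h1 : π i f = (u * w⁻¹) * (w * ∏ j, y j ^ χ i j) := by
        rw [hu1]
        field_simp
      have h3 := hreg i {x, x⁻¹} hS3 f hf1
      rw [h1] at h3 ⊢
      exact H1_eigen hE hEq (weak_cyc c hc (χ i)) hp (GG_mm_le c hm hn (χ i) _)
        (GG_det_one c (χ i) (hd _)) (mul_mem hu (inv_mem hw)) h3
    choose g hg h hh hgh using hz
    refine ⟨∑ i, g i, GG_reg_sum g hg, ∑ i, h i, GG_reg_sum h hh, ?_⟩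
    rw [← hsum f, GG_D_sum, GG_D_sum, GG_D_sum, ← Finset.sum_add_distrib]
    exact Finset.sum_congr rfl fun i _ => hgh i

end MPadcCA
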