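import Pool.Agent.Lib.MP_adc574_ag_CA.MDefs

/-!
# Leaf MB1: the homogeneous substitution
-/

set_option autoImplicit false

namespace MPadcCA

open Polynomial MPadcCC

variable {K : Type*} [Field K] {α β γ δ : K}

private theorem MB1_u_ne (hΔ : α * δ - β * γ ≠ 0) : (C α - C γ * X : K[X]) ≠ 0 := by
  intro h
  apply hΔ
  have h0 := congrArg (fun p => coeff p 0) h
  have h1 := congrArg (fun p => coeff p 1) h
  simp only [coeff_sub, coeff_C_zero, coeff_C_mul, coeff_X_zero, mul_zero, sub_zero, coeff_zero] at h0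
  simp only [coeff_sub, coeff_C_succ, coeff_C_mul, coeff_X_one, mul_one, zero_sub, coeff_zero,
    neg_eq_zero] at h1
  rw [h0, h1]
  ring

private theorem MB1_frac (hΔ : α * δ - β * γ ≠ 0) {N : ℕ} {P : K[X]} (hP : P.natDegree ≤ N) :
    algebraMap K[X] (FractionRing K[X]) (hsub α β γ δ N P) =
      algebraMap K[X] (FractionRing K[X]) (C α - C γ * X) ^ N *
        P.eval₂ ((algebraMap K[X] (FractionRing K[X])).comp C)
          (algebraMap K[X] (FractionRing K[X]) (C δ * X - C β) /
            algebraMap K[X] (FractionRing K[X]) (C α - C γ * X)) := by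
  have hu : algebraMap K[X] (FractionRing K[X]) (C α - C γ * X) ≠ 0 := by
    intro h
    exact MB1_u_ne hΔ ((IsFractionRing.injective K[X] (FractionRing K[X])) (h.trans (map_zero _).symm))
  unfold hsub
  rw [map_sum, eval₂_eq_sum_range' _ (Nat.lt_succ_of_le hP), Finset.mul_sum]
  refine Finset.sum_congr rfl fun k hk => ?_
  have hk' : k ≤ N := Nat.lt_succ_iff.1 (Finset.mem_range.1 hk)
  obtain ⟨i, rfl⟩ := Nat.exists_eq_add_of_le hk'
  rw [Nat.add_sub_cancel_left, map_mul, map_mul, map_pow, map_pow, RingHom.comp_apply, div_pow, pow_add]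
  field_simp

/-- PROOF. `u = C α - C γ * X ≠ 0` (if `α = γ = 0` then `α δ - β γ = 0`). In `FractionRing K[X]` (or `RatFunc K`) with `U`, `V` the images of `u` and of `C δ * X - C β`: the image of `hsub α β γ δ N P` is
`U ^ N * aeval (V / U) P` if `P.natDegree ≤ N` (`aeval_eq_sum_range'`, `V ^ k * U ^ (N - k) = U ^ N * (V / U) ^ k`). `aeval` is multiplicative and `algebraMap` is injective. -/
theorem hsub_mul (hΔ : α * δ - β * γ ≠ 0) {N M : ℕ} {P Q : K[X]} (hP : P.natDegree ≤ N)
    (hQ : Q.natDegree ≤ M) :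
    hsub α β γ δ (N + M) (P * Q) = hsub α β γ δ N P * hsub α β γ δ M Q := by
  apply IsFractionRing.injective K[X] (FractionRing K[X])
  rw [map_mul, MB1_frac hΔ hP, MB1_frac hΔ hQ,
    MB1_frac hΔ (natDegree_mul_le.trans (Nat.add_le_add hP hQ)), eval₂_mul, pow_add]
  ring

/-- PROOF. As `hsub_mul`, or from it (the elements `w = V / U` and `X` of `FractionRing K[X]`: `X = (α w + β) / (γ w + δ)`; if `aeval w P = 0` with `P ≠ 0` then `w`, so also `X`, is algebraic over `K`). Or: let `P ≠ 0`. If `γ ≠ 0` take the largest `k ≤ N` with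
`P.coeff k ≠ 0` and cancel `u ^ (N - k)`: `u` divides `C (P.coeff k) * (C δ * X - C β) ^ k`, but `u` (degree one) and `C δ * X - C β` are coprime (`γ (δ X - β) + δ (α - γ X) = α δ - β γ`). If `γ = 0` then `u` is a nonzero constant and `δ ≠ 0`, so `hsub` is a sum of
different powers of a polynomial of degree one (`P.comp` of a linear polynomial up to constants). -/
theorem hsub_injective (hΔ : α * δ - β * γ ≠ 0) {N : ℕ} {P : K[X]} (hP : P.natDegree ≤ N)
    (h : hsub α β γ δ N P = 0) : P = 0 := by
  by_contra hP0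
  have hu : algebraMap K[X] (FractionRing K[X]) (C α - C γ * X) ≠ 0 := by
    intro h'
    exact MB1_u_ne hΔ ((IsFractionRing.injective K[X] (FractionRing K[X])) (h'.trans (map_zero _).symm))
  have h1 := MB1_frac hΔ hP
  rw [h, map_zero] at h1
  have h2 := (mul_eq_zero.1 h1.symm).resolve_left (pow_ne_zero _ hu)
  set w : FractionRing K[X] := algebraMap K[X] (FractionRing K[X]) (C δ * X - C β) /
    algebraMap K[X] (FractionRing K[X]) (C α - C γ * X) with hw
  have hwa : IsAlgebraic K w := ⟨P, hP0, h2⟩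
  have hc : ∀ a : K, algebraMap K (FractionRing K[X]) a = algebraMap K[X] (FractionRing K[X]) (C a) :=
    fun a => rfl
  have hd : algebraMap K (FractionRing K[X]) γ * w + algebraMap K (FractionRing K[X]) δ =
      algebraMap K (FractionRing K[X]) (α * δ - β * γ) /
        algebraMap K[X] (FractionRing K[X]) (C α - C γ * X) := by
    rw [eq_div_iff hu, add_mul, hw, mul_assoc, div_mul_cancel₀ _ hu, hc, hc, hc, ← map_mul, ← map_mul,
      ← map_add]
    congr 1
    simp only [map_sub, map_mul]
    ring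
  have hn : algebraMap K (FractionRing K[X]) α * w + algebraMap K (FractionRing K[X]) β =
      algebraMap K (FractionRing K[X]) (α * δ - β * γ) * algebraMap K[X] (FractionRing K[X]) X /
        algebraMap K[X] (FractionRing K[X]) (C α - C γ * X) := by
    rw [eq_div_iff hu, add_mul, hw, mul_assoc, div_mul_cancel₀ _ hu, hc, hc, hc, ← map_mul, ← map_mul,
      ← map_add, ← map_mul]
    congr 1
    simp only [map_sub, map_mul]
    ring
  have hΔ' : algebraMap K (FractionRing K[X]) (α * δ - β * γ) ≠ 0 := by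
    intro h'
    exact hΔ ((algebraMap K (FractionRing K[X])).injective (h'.trans (map_zero _).symm))
  have hX : algebraMap K[X] (FractionRing K[X]) X =
      (algebraMap K (FractionRing K[X]) α * w + algebraMap K (FractionRing K[X]) β) *
        (algebraMap K (FractionRing K[X]) γ * w + algebraMap K (FractionRing K[X]) δ)⁻¹ := by
    rw [hd, hn]
    field_simp
  have h3 : IsAlgebraic K (algebraMap K[X] (FractionRing K[X]) X) := by
    rw [hX]
    exact (((isAlgebraic_algebraMap α).mul hwa).add (isAlgebraic_algebraMap β)).mul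
      (((isAlgebraic_algebraMap γ).mul hwa).add (isAlgebraic_algebraMap δ)).inv
  have h4 : IsAlgebraic K (X : K[X]) :=
    (isAlgebraic_algebraMap_iff (IsFractionRing.injective K[X] (FractionRing K[X]))).1 h3
  exact transcendental_X K h4

/-- PROOF. The derivative of `V ^ k * u ^ (N - k)` (`V = C δ * X - C β`) is `V ^ (k - 1) * u ^ (N - k - 1) * (k δ u - (N - k) γ V)`, and `N = 0` in `K`, so it is `k V ^ (k - 1) * u ^ (N - k - 1) * (δ u + γ V)` with `δ u + γ V = C (α δ - β γ)`
(for `1 ≤ k ≤ N - 1`; for `k = 0` and `k = N` the derivative is zero because `(N : K) = 0`). Compare with `hsub (N - 2) (derivative P)`, `coeff_derivative`, index shift `k ↦ k - 1` (`Finset.sum_range_succ'`). -/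
theorem derivative_hsub {N : ℕ} (hN : 2 ≤ N) (hN0 : (N : K) = 0) (P : K[X]) :
    derivative (hsub α β γ δ N P) = C (α * δ - β * γ) * hsub α β γ δ (N - 2) (derivative P) := by
  obtain ⟨M, rfl⟩ := Nat.exists_eq_add_of_le hN
  rw [Nat.add_comm 2 M] at hN0 ⊢
  have hN' : ((M + 2 : ℕ) : K[X]) = 0 := by
    rw [← C_eq_natCast, hN0, C_0]
  have hdV : derivative (C δ * X - C β : K[X]) = C δ := by simp
  have hdu : derivative (C α - C γ * X : K[X]) = -C γ := by simp
  unfold hsub
  rw [Nat.add_sub_cancel, derivative_sum, Finset.sum_range_succ, Finset.sum_range_succ', Finset.mul_sum]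
  have e0 : derivative (C (P.coeff 0) * (C δ * X - C β) ^ 0 * (C α - C γ * X) ^ (M + 2 - 0) : K[X]) = 0 := by
    rw [Nat.sub_zero, pow_zero, mul_one, derivative_C_mul, derivative_pow, hdu, C_eq_natCast, hN']
    ring
  have e1 : derivative (C (P.coeff (M + 2)) * (C δ * X - C β) ^ (M + 2) *
      (C α - C γ * X) ^ (M + 2 - (M + 2)) : K[X]) = 0 := by
    rw [Nat.sub_self, pow_zero, mul_one, derivative_C_mul, derivative_pow, C_eq_natCast, hN']
    ring
  rw [e0, e1, add_zero, add_zero]
  refine Finset.sum_congr rfl fun j hj => ?_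
  have hj' : j ≤ M := Nat.lt_succ_iff.1 (Finset.mem_range.1 hj)
  obtain ⟨i, rfl⟩ := Nat.exists_eq_add_of_le hj'
  have a1 : j + i + 2 - (j + 1) = i + 1 := by omega
  rw [a1, Nat.add_sub_cancel_left, derivative_mul, derivative_C_mul, derivative_pow, derivative_pow,
    hdV, hdu, coeff_derivative, Nat.add_sub_cancel, Nat.add_sub_cancel, C_eq_natCast, C_eq_natCast]
  have hi : ((i + 1 : ℕ) : K[X]) = -((j + 1 : ℕ) : K[X]) := by
    rw [eq_neg_iff_add_eq_zero, ← hN']
    push_cast
    ring
  rw [hi]
  simp only [map_sub, map_mul, map_add, map_one, map_natCast]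
  push_cast
  ring

/-- PROOF. Expand: `C (δ + γ a) * X - C (β + α a)`. -/
theorem hsub_X_sub_C (a : K) (ha : γ * a + δ ≠ 0) :
    hsub α β γ δ 1 (X - C a) = C (γ * a + δ) * (X - C ((α * a + β) / (γ * a + δ))) := by
  have h1 : C (γ * a + δ) * C ((α * a + β) / (γ * a + δ)) = (C (α * a + β) : K[X]) := by
    rw [← C_mul, mul_div_cancel₀ _ ha]
  rw [mul_sub, h1]
  unfold hsub
  rw [Finset.sum_range_succ, Finset.sum_range_one]
  simp only [coeff_sub, coeff_X_zero, coeff_C_zero, coeff_X_one, coeff_C_succ, pow_zero, mul_one, pow_one,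
    Nat.sub_zero, Nat.sub_self, zero_sub, sub_zero, map_neg, map_one, one_mul, map_add, map_mul]
  ring

/-- PROOF. All terms have degree at most `N`. -/
theorem natDegree_hsub_le (N : ℕ) (P : K[X]) : (hsub α β γ δ N P).natDegree ≤ N := by
  unfold hsub
  refine natDegree_sum_le_of_forall_le _ _ fun k hk => ?_
  have hk' : k ≤ N := Nat.lt_succ_iff.1 (Finset.mem_range.1 hk)
  have hC : ∀ a : K, (C a : K[X]).natDegree ≤ 1 := fun a => by
    rw [natDegree_C]
    exact Nat.zero_le 1
  have hX : ∀ a : K, (C a * X : K[X]).natDegree ≤ 1 := fun a =>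
    (natDegree_C_mul_le a X).trans natDegree_X_le
  have hV : (C δ * X - C β : K[X]).natDegree ≤ 1 :=
    (natDegree_sub_le _ _).trans (max_le (hX δ) (hC β))
  have hu : (C α - C γ * X : K[X]).natDegree ≤ 1 :=
    (natDegree_sub_le _ _).trans (max_le (hC α) (hX γ))
  refine natDegree_mul_le.trans ?_
  have h1 : (C (P.coeff k) * (C δ * X - C β) ^ k : K[X]).natDegree ≤ k :=
    (natDegree_C_mul_le _ _).trans (natDegree_pow_le.trans (by
      calc k * (C δ * X - C β : K[X]).natDegree ≤ k * 1 := Nat.mul_le_mul_left _ hV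
        _ = k := Nat.mul_one k))
  have h2 : ((C α - C γ * X : K[X]) ^ (N - k)).natDegree ≤ N - k :=
    natDegree_pow_le.trans (by
      calc (N - k) * (C α - C γ * X : K[X]).natDegree ≤ (N - k) * 1 := Nat.mul_le_mul_left _ hu
        _ = N - k := Nat.mul_one _)
  calc _ ≤ k + (N - k) := Nat.add_le_add h1 h2
    _ = N := by omega

end MPadcCA
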