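import Pool.Agent.Lib.MP_adc574_ag_CC.P2
import Pool.Agent.Lib.MP_adc574_ag_CC.F0
import Pool.Agent.Lib.MP_adc574_ag_CA.MB1

/-!
# Leaf MB2: Möbius invariance
-/

set_option autoImplicit false

namespace MPadcCA

open Polynomial MPadcCC

private theorem MB2_one {K : Type*} [Field K] (α β γ δ : K) :
    hsub α β γ δ 0 (1 : K[X]) = 1 := by
  unfold hsub
  rw [zero_add, Finset.sum_range_one, coeff_one_zero, pow_zero, Nat.sub_zero, pow_zero, mul_one, mul_one, C_1]

private theorem MB2_pow {K : Type*} [Field K] {α β γ δ : K} (hΔ : α * δ - β * γ ≠ 0) (a b : K)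
    (ha : γ * a + δ ≠ 0) (hb : b = (α * a + β) / (γ * a + δ)) (n : ℕ) :
    hsub α β γ δ n ((X - C a) ^ n) = (C (γ * a + δ) * (X - C b)) ^ n := by
  induction n with
  | zero => rw [pow_zero, pow_zero, MB2_one α β γ δ]
  | succ n ih =>
    have h1 : ((X - C a) ^ n : K[X]).natDegree ≤ n := by
      rw [natDegree_pow, natDegree_X_sub_C, mul_one]
    have h2 : (X - C a : K[X]).natDegree ≤ 1 := (natDegree_X_sub_C a).le
    rw [pow_succ, hsub_mul hΔ h1 h2, ih, hsub_X_sub_C a ha, ← hb, pow_succ]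

private theorem MB2_prod {K : Type*} [Field K] {ι : Type*} {α β γ δ : K} (hΔ : α * δ - β * γ ≠ 0) (a b : ι → K)
    (ha : ∀ i, γ * a i + δ ≠ 0) (hb : ∀ i, b i = (α * a i + β) / (γ * a i + δ)) (μ : ι → ℕ) (s : Finset ι) :
    hsub α β γ δ (∑ i ∈ s, μ i) (∏ i ∈ s, (X - C (a i)) ^ μ i) =
      ∏ i ∈ s, (C (γ * a i + δ) * (X - C (b i))) ^ μ i := by
  classical
  induction s using Finset.induction_on with
  | empty => rw [Finset.sum_empty, Finset.prod_empty, Finset.prod_empty, MB2_one α β γ δ]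
  | insert j s hj ih =>
    have h1 : ((X - C (a j)) ^ μ j : K[X]).natDegree ≤ μ j := by
      rw [natDegree_pow, natDegree_X_sub_C, mul_one]
    have h2 : (∏ i ∈ s, (X - C (a i)) ^ μ i : K[X]).natDegree ≤ ∑ i ∈ s, μ i := by
      refine (natDegree_prod_le _ _).trans (Finset.sum_le_sum fun i _ => ?_)
      rw [natDegree_pow, natDegree_X_sub_C, mul_one]
    rw [Finset.sum_insert hj, Finset.prod_insert hj, Finset.prod_insert hj, hsub_mul hΔ h1 h2, ih,
      MB2_pow hΔ (a j) (b j) (ha j) (hb j)]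

/-- PROOF. If `m ≤ 1` the degree condition gives `f = 0`. Let `m ≥ 2`, `f.degree < m - 1`, `derivative H = f * gg a μ`; by `exists_deriv_natDegree` we may assume `H.natDegree ≤ (m - 2) + m (p - 1) + 1 ≤ m p`. Put `N = m p`, zero in `K`. By `derivative_hsub`
`derivative (hsub N H) = C Δ * hsub (N - 2) (f * gg a μ)`, and `N - 2 = (m - 2) + m (p - 1)`, so by `hsub_mul` this is `C Δ * hsub (m - 2) f * hsub (m (p - 1)) (gg a μ)`. By induction over the product (`Finset.prod_induction`-like, `hsub_mul`, `hsub_X_sub_C`, `hsub 0 1 = 1`)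
`hsub (∑ μ i) (gg a μ) = C (∏ (γ a_i + δ) ^ μ_i) * gg b μ`. So `hsub (m - 2) f * gg b μ` is the derivative of `C c⁻¹ * hsub N H` for a constant `c ≠ 0`, `hsub (m - 2) f` has degree `≤ m - 2` (`natDegree_hsub_le`), so it is zero by `h`, and `f = 0` (`hsub_injective`). -/
theorem inj_moebius {K : Type*} [Field K] {p : ℕ} [Fact p.Prime] [CharP K p] {ι : Type*}
    [Fintype ι] (α β γ δ : K) (hΔ : α * δ - β * γ ≠ 0) (a b : ι → K)
    (ha : ∀ i, γ * a i + δ ≠ 0) (hb : ∀ i, b i = (α * a i + β) / (γ * a i + δ)) (μ : ι → ℕ)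
    (m : ℕ) (hm : ∑ i, μ i = m * (p - 1)) (h : Inj m (gg b μ)) : Inj m (gg a μ) := by
  intro f hf hex
  have hp : 2 ≤ p := (Fact.out : p.Prime).two_le
  by_cases hm1 : m ≤ 1
  · have h0 : m - 1 = 0 := by omega
    rw [h0] at hf
    exact degree_eq_bot.1 (Nat.WithBot.lt_zero_iff.1 hf)
  · have hm2 : 2 ≤ m := by omega
    have hfd : f.natDegree ≤ m - 2 := by
      refine natDegree_le_of_degree_le ?_
      refine Order.le_of_lt_succ ?_
      have h1 : Order.succ ((m - 2 : ℕ) : WithBot ℕ) = ((m - 1 : ℕ) : WithBot ℕ) := by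
        have h2 : m - 1 = (m - 2) + 1 := by omega
        rw [h2]
        rfl
      rw [h1]
      exact hf
    have hgd : (gg a μ).natDegree ≤ m * (p - 1) := by
      rw [natDegree_gg, hm]
    have hN2 : m * p - 2 = (m - 2) + m * (p - 1) := by
      rw [Nat.mul_sub, mul_one]
      have h1 : m * 2 ≤ m * p := Nat.mul_le_mul_left m hp
      omega
    have hN : 2 ≤ m * p := by
      have h1 : 2 * 2 ≤ m * p := Nat.mul_le_mul hm2 hp
      omega
    have hN0 : ((m * p : ℕ) : K) = 0 := by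
      rw [Nat.cast_mul, CharP.cast_eq_zero K p, mul_zero]
    obtain ⟨H, hH⟩ := hex
    have hD := derivative_hsub (α := α) (β := β) (γ := γ) (δ := δ) hN hN0 H
    rw [hH, hN2, hsub_mul hΔ hfd hgd] at hD
    obtain ⟨c, hc⟩ : ∃ c, c = ∏ i, (γ * a i + δ) ^ μ i := ⟨_, rfl⟩
    have hc0 : c ≠ 0 := by
      rw [hc]
      exact Finset.prod_ne_zero_iff.2 fun i _ => pow_ne_zero _ (ha i)
    have hgg : hsub α β γ δ (m * (p - 1)) (gg a μ) = C c * gg b μ := by
      have h1 := MB2_prod hΔ a b ha hb μ Finset.univ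
      rw [hm] at h1
      have h2 : hsub α β γ δ (m * (p - 1)) (gg a μ) = ∏ i, (C (γ * a i + δ) * (X - C (b i))) ^ μ i := h1
      rw [h2, hc, gg, map_prod, ← Finset.prod_mul_distrib]
      refine Finset.prod_congr rfl fun i _ => ?_
      rw [mul_pow, map_pow]
    rw [hgg] at hD
    refine hsub_injective hΔ hfd (h (hsub α β γ δ (m - 2) f) ?_
      ⟨C ((α * δ - β * γ) * c)⁻¹ * hsub α β γ δ (m * p) H, ?_⟩)
    · refine lt_of_le_of_lt (degree_le_of_natDegree_le (natDegree_hsub_le _ _)) ?_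
      exact WithBot.coe_lt_coe.2 (show m - 2 < m - 1 by omega)
    · rw [derivative_C_mul, hD]
      have h3 : C ((α * δ - β * γ) * c)⁻¹ * (C (α * δ - β * γ) * (hsub α β γ δ (m - 2) f * (C c * gg b μ))) =
          C (((α * δ - β * γ) * c)⁻¹ * ((α * δ - β * γ) * c)) * (hsub α β γ δ (m - 2) f * gg b μ) := by
        rw [C_mul, C_mul]
        ring
      rw [h3, inv_mul_cancel₀ (mul_ne_zero hΔ hc0), C_1, one_mul]

end MPadcCA
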