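import Pool.Agent.Lib.MP_adc574_ag_CC.PDefs

/-!
# Abelian covers, Möbius transformations: definition
-/

set_option autoImplicit false

namespace MPadcCA

open Polynomial MPadcCC

/-- The homogeneous substitution: `u ^ N * P ((δ X - β) / u)` for `u = α - γ X`, if the degree of `P` is at most `N`. -/
noncomputable def hsub {K : Type*} [CommRing K] (α β γ δ : K) (N : ℕ) (P : K[X]) : K[X] :=
  ∑ k ∈ Finset.range (N + 1), C (P.coeff k) * (C δ * X - C β) ^ k * (C α - C γ * X) ^ (N - k)

end MPadcCA
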