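import Pool.Agent.Lib.MP_adc574_ag_CC.P9

/-!
# Leaf NB: at most three branch points
-/

set_option autoImplicit false

namespace MPadcCA

open Polynomial MPadcCC

/-- PROOF. If `m ≤ 1` then `Inj m` is trivial (`f.degree < 0`). Otherwise `m ≥ 2`; with `ν i = p - 1 - μ i > 0` and `N = card ι ≤ 3`: `∑ ν i = (N - m) (p - 1)`, and `0 < ∑ ν i` unless `ι` is empty (then `m = 0`), so `N - m ≥ 1`, so `N = 3`, `m = 2`, `N - m = 1`:
`Inj 1 (gg a ν)` is trivial and `inj_dual` (for `ν`, `μ`, `m' = 1`, `m = 2`) gives the claim. -/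
theorem inj_few {K : Type*} [Field K] {p : ℕ} [Fact p.Prime] [CharP K p] {ι : Type*} [Fintype ι]
    [DecidableEq ι] (a : ι → K) (ha : Function.Injective a) (μ : ι → ℕ) (hμ : ∀ i, 0 < μ i)
    (hμp : ∀ i, μ i + 1 < p) (m : ℕ) (hm : ∑ i, μ i = m * (p - 1)) (hι : Fintype.card ι ≤ 3) :
    Inj m (gg a μ) := by
  have hp : 2 ≤ p := (Fact.out : p.Prime).two_le
  have triv : ∀ (m : ℕ) (G : K[X]), m ≤ 1 → Inj m G := by
    intro m G hm g hg _
    rw [show m - 1 = 0 by omega] at hg
    exact degree_eq_bot.1 (Nat.WithBot.lt_zero_iff.1 (by simpa using hg))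
  rcases Nat.lt_or_ge m 2 with h | h
  · exact triv m _ (by omega)
  · set ν : ι → ℕ := fun i => p - 1 - μ i with hν
    have hadd : ∀ i, ν i + μ i = p - 1 := fun i => by have := hμp i; simp only [hν]; omega
    have hνpos : ∀ i, 0 < ν i := fun i => by have := hμp i; simp only [hν]; omega
    have hsum : ∑ i, ν i + m * (p - 1) = Fintype.card ι * (p - 1) := by
      rw [← hm, ← Finset.sum_add_distrib, Finset.sum_congr rfl fun i _ => hadd i]
      simp
    have hne : 0 < Fintype.card ι := by
      rcases Nat.eq_zero_or_pos (Fintype.card ι) with h0 | h0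
      · rw [h0, zero_mul] at hsum
        have : 0 < m * (p - 1) := Nat.mul_pos (by omega) (by omega)
        omega
      · exact h0
    obtain ⟨i₀⟩ := Fintype.card_pos_iff.1 hne
    have hpos : 0 < ∑ i, ν i := Finset.sum_pos (fun i _ => hνpos i) ⟨i₀, Finset.mem_univ i₀⟩
    have hlt : m < Fintype.card ι := by
      by_contra hge
      have := Nat.mul_le_mul_right (p - 1) (not_lt.1 hge)
      omega
    have hm2 : m = 2 := by omega
    have hc : Fintype.card ι = 3 := by omega
    have hs1 : ∑ i, ν i = 1 * (p - 1) := by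
      rw [hm2, hc] at hsum
      omega
    exact inj_dual a ha ν μ hadd hνpos 1 m hs1 hm (by omega) (triv 1 _ le_rfl)

end MPadcCA
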