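import Pool.Agent.Lib.MP_adc574_ag_CC.P6
import Pool.Agent.Lib.MP_adc574_ag_CC.P11

/-!
# Leaf NT: one transcendental branch point
-/

set_option autoImplicit false

namespace MPadcCA

open Polynomial MPadcCC

/-- PROOF. Let `B = Algebra.adjoin ℤ w`, a subring of the domain `R`, `E = FractionRing B`, of characteristic `p` (`(p : B) = 0`; `MPadcLP`/`CharP` of an injective map). `b' : ι → B`, `b' i = ⟨b i, _⟩` for `i ≠ o`. `det_ne_zero o` (leaf P11) for the images of the `b' i` in `E` says that the
determinant over `E[X]` is not zero; it is the image of `D = det (hw p m (gg (fun i => if i = o then X else C (b' i)) μ))` in `B[X]` (`gg_map`, `det_hw_map` for `mapRingHom`), so `D ≠ 0`. `aeval (b o) D = det (hw p m (gg b μ))` in `R` (`gg_map`, `det_hw_map` for `aeval (b o)`), not zero because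
`b o` is transcendental over `B`; its image under `σ` is `det (hw p m (gg (σ ∘ b) μ)) ≠ 0`, and `inj_of_det` (`m ≤ card ι ≤ p`, as `∑ μ i ≤ card ι * (p - 1)`). Model: `det_ne_zero_of_transcendental` in Pool/Agent/Lib/MP_adc574_ag_M/Trans.lean. -/
theorem inj_transc {R : Type*} [CommRing R] [IsDomain R] {p : ℕ} [Fact p.Prime] [CharP R p]
    {K : Type*} [Field K] [CharP K p] (σ : R →+* K) (hσ : Function.Injective σ) {ι : Type*}
    [Fintype ι] [DecidableEq ι] (b : ι → R) (hb : Function.Injective b) (o : ι) (w : Set R)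
    (hw : ∀ i, i ≠ o → b i ∈ w) (ht : Transcendental (Algebra.adjoin ℤ w) (b o)) (μ : ι → ℕ)
    (hμ : ∀ i, 0 < μ i) (hμp : ∀ i, μ i + 1 < p) (m : ℕ) (hm : ∑ i, μ i = m * (p - 1))
    (hb1 : Fintype.card ι ≤ μ o) (hb2 : μ o + Fintype.card ι ≤ p) :
    Inj m (gg (fun i => σ (b i)) μ) := by
  classical
  have hp2 : 2 ≤ p := (Fact.out : p.Prime).two_le
  have hsum : ∑ i, μ i ≤ Fintype.card ι * (p - 1) := by
    have h : ∑ i, μ i ≤ ∑ _i : ι, (p - 1) :=
      Finset.sum_le_sum fun i _ => by have := hμp i; omega
    simpa using h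
  have hmc : m ≤ Fintype.card ι := by
    rw [hm] at hsum
    exact Nat.le_of_mul_le_mul_right hsum (by omega)
  have hmp : m ≤ p := by omega
  let B : Subalgebra ℤ R := Algebra.adjoin ℤ w
  let b' : ι → B := fun i => if h : i ≠ o then ⟨b i, Algebra.subset_adjoin (hw i h)⟩ else 0
  have hb' : ∀ i, i ≠ o → ((b' i : B) : R) = b i := by
    intro i hi
    simp only [b', dif_pos hi]
  let ρ : B →+* FractionRing B := algebraMap B (FractionRing B)
  have hρ : Function.Injective ρ := IsFractionRing.injective B (FractionRing B)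
  have hcharB : CharP B p := RingHom.charP (B.val : B →+* R) Subtype.val_injective p
  have hcharp : CharP (FractionRing B) p := charP_of_injective_algebraMap hρ p
  let D : B[X] := (MPadcCC.hw p m (gg (fun i => if i = o then (X : B[X]) else C (b' i)) μ)).det
  have hDL : (mapRingHom ρ) D ≠ 0 := by
    change (mapRingHom ρ) (MPadcCC.hw p m (gg (fun i => if i = o then (X : B[X]) else C (b' i)) μ)).det ≠ 0
    rw [← det_hw_map, gg_map]
    have hfun : (fun i => mapRingHom ρ (if i = o then (X : B[X]) else C (b' i))) =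
        fun i => if i = o then (X : (FractionRing B)[X]) else C (ρ (b' i)) := by
      funext i
      by_cases hi : i = o
      · rw [if_pos hi, if_pos hi, coe_mapRingHom, map_X]
      · rw [if_neg hi, if_neg hi, coe_mapRingHom, map_C]
    rw [hfun]
    refine det_ne_zero o (fun i => ρ (b' i)) (fun i j hi hj hij => ?_) μ hμ hμp m hm hb1 hb2
    apply hb
    rw [← hb' i hi, ← hb' j hj, hρ hij]
  have hD0 : D ≠ 0 := by
    intro h
    apply hDL
    rw [h, map_zero]
  have hev : aeval (b o) D = (MPadcCC.hw p m (gg b μ)).det := by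
    change (aeval (b o) : B[X] →ₐ[B] R).toRingHom
      (MPadcCC.hw p m (gg (fun i => if i = o then (X : B[X]) else C (b' i)) μ)).det = _
    rw [← det_hw_map, gg_map]
    have hfun : (fun i => (aeval (b o) : B[X] →ₐ[B] R).toRingHom
        (if i = o then (X : B[X]) else C (b' i))) = b := by
      funext i
      by_cases hi : i = o
      · rw [if_pos hi, hi]
        exact aeval_X (b o)
      · rw [if_neg hi]
        exact (aeval_C (b o) (b' i)).trans (hb' i hi)
    rw [hfun]
  have h1 : (MPadcCC.hw p m (gg b μ)).det ≠ 0 := by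
    rw [← hev]
    intro h0
    exact hD0 (transcendental_iff.1 ht D h0)
  apply inj_of_det hmp
  rw [← gg_map σ b μ, det_hw_map]
  intro h0
  exact h1 (hσ (by rw [h0, map_zero]))

end MPadcCA
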