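import Pool.Agent.Lib.MP_adc574_ag_CC.P6
import Pool.Agent.Lib.MP_adc574_ag_CA.MB2
import Pool.Agent.Lib.MP_adc574_ag_CA.NB
import Pool.Agent.Lib.MP_adc574_ag_CA.NT

/-!
# Leaf SB1: one determinant is not in the prime ideal
-/

set_option autoImplicit false

namespace MPadcCA

open Polynomial MPadcCC

universe u

private theorem SB1_charP {A : Type u} [CommRing A] (Q : Ideal A) [Q.IsPrime] {p : ℕ}
    (hp : p.Prime) (hpQ : (p : A) ∈ Q) : CharP (A ⧸ Q) p := by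
  refine (CharP.charP_iff_prime_eq_zero hp).2 ?_
  have h := Ideal.Quotient.eq_zero_iff_mem.2 hpQ
  rwa [map_natCast] at h

private theorem SB1_charP' {A : Type u} [CommRing A] (Q : Ideal A) [Q.IsPrime] {p : ℕ}
    (hp : p.Prime) (hpQ : (p : A) ∈ Q) : CharP (FractionRing (A ⧸ Q)) p := by
  have := SB1_charP Q hp hpQ
  exact charP_of_injective_algebraMap (IsFractionRing.injective (A ⧸ Q) (FractionRing (A ⧸ Q))) p

private noncomputable def SB1_s {A : Type u} [CommRing A] (Q : Ideal A) :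
    A →+* FractionRing (A ⧸ Q) :=
  (algebraMap (A ⧸ Q) (FractionRing (A ⧸ Q))).comp (Ideal.Quotient.mk Q)

private theorem SB1_s_eq {A : Type u} [CommRing A] (Q : Ideal A) (x : A) :
    SB1_s Q x = algebraMap (A ⧸ Q) (FractionRing (A ⧸ Q)) (Ideal.Quotient.mk Q x) := rfl

private theorem SB1_s_zero {A : Type u} [CommRing A] (Q : Ideal A) [Q.IsPrime] (x : A) :
    SB1_s Q x = 0 ↔ x ∈ Q := by
  rw [SB1_s_eq, ← Ideal.Quotient.eq_zero_iff_mem]
  constructor
  · intro h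
    exact IsFractionRing.injective (A ⧸ Q) (FractionRing (A ⧸ Q)) (h.trans (map_zero _).symm)
  · intro h
    rw [h, map_zero]

private theorem SB1_sum {n : ℕ} (μ : Fin (n + 1) → ℕ) :
    ∑ i : {i // 0 < μ i}, μ i.1 = ∑ i, μ i := by
  refine (Finset.sum_subtype (p := fun i => 0 < μ i) (Finset.univ.filter fun i => 0 < μ i)
    (fun x => by simp) (fun i => μ i)).symm.trans ?_
  refine Finset.sum_subset (Finset.filter_subset _ _) fun i _ hi => ?_
  by_contra h0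
  exact hi (Finset.mem_filter.2 ⟨Finset.mem_univ _, Nat.pos_of_ne_zero h0⟩)

private theorem SB1_card {n : ℕ} (S : Finset (Fin (n + 1))) (μ : Fin (n + 1) → ℕ)
    (hSμ : ∀ i, i ∈ S ↔ 0 < μ i) : Fintype.card {i // 0 < μ i} = S.card :=
  Fintype.card_of_subtype S hSμ

private theorem SB1_le {n : ℕ} (μ : Fin (n + 1) → ℕ) {p m : ℕ} (hp : 2 ≤ p)
    (hμp : ∀ i, μ i + 1 < p) (hm : ∑ i, μ i = m * (p - 1)) :
    m ≤ Fintype.card {i // 0 < μ i} := by
  have h1 : ∑ i : {i // 0 < μ i}, μ i.1 ≤ ∑ _i : {i // 0 < μ i}, (p - 1) :=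
    Finset.sum_le_sum fun i _ => by
      have := hμp i.1
      omega
  rw [SB1_sum, hm, Finset.sum_const, Finset.card_univ, smul_eq_mul] at h1
  exact Nat.le_of_mul_le_mul_right h1 (by omega)

private theorem SB1_end {A : Type u} [CommRing A] (Q : Ideal A) [Q.IsPrime] {p : ℕ}
    [Fact p.Prime] (hpQ : (p : A) ∈ Q) {n : ℕ} (a : Fin (n + 1) → A) (μ : Fin (n + 1) → ℕ)
    (m : ℕ) (hm : ∑ i, μ i = m * (p - 1)) (hmp : m ≤ p)
    (h : Inj m (gg (fun i : {i // 0 < μ i} => SB1_s Q (a i.1)) fun i => μ i.1)) :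
    (hw p m (gg a μ)).det ∉ Q := by
  have := SB1_charP' Q (Fact.out : p.Prime) hpQ
  intro hQ
  rw [← SB1_s_zero, ← det_hw_map, gg_map] at hQ
  rw [gg_subtype (fun i => SB1_s Q (a i)) μ] at h
  exact det_ne_zero_of_inj hmp _ (by rw [natDegree_gg, hm]) h hQ

/-- PROOF. `K = FractionRing (A ⧸ Q)`, of characteristic `p`, `σ : A → K`, the kernel is `Q`. The determinant for the points `σ (a i)` is the image (`gg_map`, `det_hw_map`), so we need it to be not zero. Restrict to the subtype `{i // 0 < μ i}` (`gg_subtype`; `∑` over the subtype: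
`Finset.sum_subtype` or `Fintype.sum_subtype_add_sum_subtype`), its cardinality is the one of `S`. `inj_few`, `det_ne_zero_of_inj` (`m ≤ card ≤ 3 ≤ p`; `natDegree (gg a μ) = ∑ μ i`: `natDegree_gg`). -/
theorem det_notMem_few {A : Type u} [CommRing A] (Q : Ideal A) [Q.IsPrime] {p : ℕ} [Fact p.Prime]
    (hpQ : (p : A) ∈ Q) {n : ℕ} (a : Fin (n + 1) → A) (ha : ∀ i j, i ≠ j → a i - a j ∉ Q)
    (S : Finset (Fin (n + 1))) (hS : S.card ≤ 3) (μ : Fin (n + 1) → ℕ)
    (hSμ : ∀ i, i ∈ S ↔ 0 < μ i) (hμp : ∀ i, μ i + 1 < p) (m : ℕ)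
    (hm : ∑ i, μ i = m * (p - 1)) (hp3 : 3 ≤ p) : (hw p m (gg a μ)).det ∉ Q := by
  have := SB1_charP' Q (Fact.out : p.Prime) hpQ
  have hcard := SB1_card S μ hSμ
  have hle := SB1_le μ (by omega) hμp hm
  have hmp : m ≤ p := (hle.trans (hcard.le.trans hS)).trans hp3
  have hsum : ∑ i : {i // 0 < μ i}, μ i.1 = m * (p - 1) := (SB1_sum μ).trans hm
  refine SB1_end Q hpQ a μ m hm hmp ?_
  refine inj_few (p := p) (fun i : {i // 0 < μ i} => SB1_s Q (a i.1)) ?_ (fun i => μ i.1)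
    (fun i => i.2) (fun i => hμp i.1) m hsum (hcard.le.trans hS)
  intro i j hij
  by_contra hne
  have hne' : i.1 ≠ j.1 := fun e => hne (Subtype.ext e)
  refine ha i.1 j.1 hne' ?_
  rw [← SB1_s_zero, map_sub]
  exact sub_eq_zero.2 hij

/-- PROOF. As `det_notMem_few` with `R = A ⧸ Q`, `K = FractionRing R`, restricted to `{i // 0 < μ i}`: `inj_transc` for the classes of the `b i` in `R` (`w' = mk '' w`; the `b i`, `i ∈ S`, are different because a Möbius transformation is injective: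
`(b i - b j) (γ a i + δ) (γ a j + δ) = (α δ - β γ) (a i - a j) ∉ Q`) gives `Inj m (gg b μ)` over `K`, `inj_moebius` gives `Inj m (gg a μ)` over `K`, `det_ne_zero_of_inj`. -/
theorem det_notMem_free {A : Type u} [CommRing A] (Q : Ideal A) [Q.IsPrime] {p : ℕ}
    [Fact p.Prime] (hpQ : (p : A) ∈ Q) {n : ℕ} (a : Fin (n + 1) → A)
    (ha : ∀ i j, i ≠ j → a i - a j ∉ Q) (S : Finset (Fin (n + 1))) (o : Fin (n + 1)) (ho : o ∈ S)
    (α β γ δ : A) (hΔ : α * δ - β * γ ∉ Q) (b : Fin (n + 1) → A)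
    (hden : ∀ i ∈ S, γ * a i + δ ∉ Q) (hb : ∀ i ∈ S, b i * (γ * a i + δ) = α * a i + β)
    (w : Finset A) (hw : ∀ i ∈ S, i ≠ o → b i ∈ w)
    (ht : Transcendental (Algebra.adjoin ℤ ((Ideal.Quotient.mk Q) '' (w : Set A)))
      (Ideal.Quotient.mk Q (b o))) (μ : Fin (n + 1) → ℕ) (hSμ : ∀ i, i ∈ S ↔ 0 < μ i)
    (hμp : ∀ i, μ i + 1 < p) (m : ℕ) (hm : ∑ i, μ i = m * (p - 1)) (hb1 : n + 1 ≤ μ o)
    (hb2 : μ o + (n + 1) ≤ p) : (MPadcCC.hw p m (gg a μ)).det ∉ Q := by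
  have := SB1_charP Q (Fact.out : p.Prime) hpQ
  have := SB1_charP' Q (Fact.out : p.Prime) hpQ
  have hp2 : 2 ≤ p := (Fact.out : p.Prime).two_le
  have hle := SB1_le μ hp2 hμp hm
  have hcn : Fintype.card {i // 0 < μ i} ≤ n + 1 := by
    have := Fintype.card_subtype_le (fun i : Fin (n + 1) => 0 < μ i)
    rwa [Fintype.card_fin] at this
  have hsum : ∑ i : {i // 0 < μ i}, μ i.1 = m * (p - 1) := by rw [SB1_sum, hm]
  have hbK : ∀ i : {i // 0 < μ i}, SB1_s Q (b i.1) =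
      (SB1_s Q α * SB1_s Q (a i.1) + SB1_s Q β) / (SB1_s Q γ * SB1_s Q (a i.1) + SB1_s Q δ) := by
    intro i
    have hi : i.1 ∈ S := (hSμ i.1).2 i.2
    have h0 : SB1_s Q γ * SB1_s Q (a i.1) + SB1_s Q δ ≠ 0 := by
      rw [← map_mul, ← map_add]
      exact fun e => hden i.1 hi ((SB1_s_zero Q _).1 e)
    rw [eq_div_iff h0, ← map_mul, ← map_add, ← map_mul, ← map_mul, ← map_add, hb i.1 hi]
  refine SB1_end Q hpQ a μ m hm (by omega) ?_
  refine inj_moebius (p := p) (SB1_s Q α) (SB1_s Q β) (SB1_s Q γ) (SB1_s Q δ) ?_ _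
    (fun i : {i // 0 < μ i} => SB1_s Q (b i.1)) ?_ hbK _ m hsum ?_
  · rw [← map_mul, ← map_mul, ← map_sub]
    exact fun e => hΔ ((SB1_s_zero Q _).1 e)
  · intro i
    rw [← map_mul, ← map_add]
    exact fun e => hden i.1 ((hSμ i.1).2 i.2) ((SB1_s_zero Q _).1 e)
  · refine inj_transc (p := p) (algebraMap (A ⧸ Q) (FractionRing (A ⧸ Q)))
      (IsFractionRing.injective _ _) (fun i : {i // 0 < μ i} => Ideal.Quotient.mk Q (b i.1)) ?_
      ⟨o, (hSμ o).1 ho⟩ _ ?_ ht _ (fun i => i.2) (fun i => hμp i.1) m hsum ?_ ?_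
    · intro i j hij
      by_contra hne
      have hne' : i.1 ≠ j.1 := fun e => hne (Subtype.ext e)
      have hi : i.1 ∈ S := (hSμ i.1).2 i.2
      have hj : j.1 ∈ S := (hSμ j.1).2 j.2
      have h1 : b i.1 - b j.1 ∈ Q := by
        rw [← Ideal.Quotient.eq_zero_iff_mem, map_sub]
        exact sub_eq_zero.2 hij
      have h2 : (α * δ - β * γ) * (a i.1 - a j.1) =
          (b i.1 - b j.1) * ((γ * a i.1 + δ) * (γ * a j.1 + δ)) := by
        linear_combination (-(γ * a j.1 + δ)) * hb i.1 hi + (γ * a i.1 + δ) * hb j.1 hj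
      have h3 : (α * δ - β * γ) * (a i.1 - a j.1) ∈ Q := by
        rw [h2]
        exact Q.mul_mem_right _ h1
      rcases (inferInstance : Q.IsPrime).mem_or_mem h3 with h4 | h4
      · exact hΔ h4
      · exact ha i.1 j.1 hne' h4
    · intro i hi
      have hio : i.1 ≠ o := fun e => hi (Subtype.ext e)
      exact ⟨b i.1, hw i.1 ((hSμ i.1).2 i.2) hio, rfl⟩
    · exact hcn.trans hb1
    · exact (Nat.add_le_add_left hcn _).trans hb2

end MPadcCA
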