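import Pool.Agent.Lib.MP_adc574_ag_M.Tr
import Pool.Agent.Lib.MP_adc574_ag_CA.ADefs
import Pool.Agent.Lib.MP_adc574_ag_CA.SB1

/-!
# Leaf SB2: a prime ideal which contains none of the determinants
-/

set_option autoImplicit false

namespace MPadcCA

open Polynomial MPadcCC

universe u

/-- Transcendence over a subfield implies transcendence over a subring of it. -/
private theorem SB2_trans {k : Type u} [Field k] (A' : Subalgebra ℤ k) (κ : Subfield k)
    (w : Set A') (hw : ∀ x ∈ w, (x : k) ∈ κ) (v : A') (hv : Transcendental κ (v : k)) :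
    Transcendental (Algebra.adjoin ℤ w) v := by
  rintro ⟨P, hP, hPv⟩
  apply hv
  have hle : ∀ x ∈ Algebra.adjoin ℤ w, (x : k) ∈ κ := by
    intro x hx
    refine Algebra.adjoin_induction (p := fun (x : A') _ => (x : k) ∈ κ) ?_ ?_ ?_ ?_ hx
    · intro x hx
      exact hw x hx
    · intro r
      have h1 : ((algebraMap ℤ A' r : A') : k) = (r : k) := by simp
      rw [h1]
      exact intCast_mem κ r
    · intro x y _ _ hx hy
      exact κ.add_mem hx hy
    · intro x y _ _ hx hy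
      exact κ.mul_mem hx hy
  let f : Algebra.adjoin ℤ w →+* κ :=
    { toFun := fun x => ⟨((x : A') : k), hle x x.2⟩
      map_one' := rfl
      map_mul' := fun _ _ => rfl
      map_zero' := rfl
      map_add' := fun _ _ => rfl }
  have hf : Function.Injective f := by
    intro x y hxy
    have h1 := congrArg (fun x : κ => (x : k)) hxy
    exact Subtype.ext (Subtype.ext h1)
  refine ⟨P.map f, (Polynomial.map_ne_zero_iff hf).2 hP, ?_⟩
  have h1 := congrArg A'.val.toRingHom hPv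
  rw [map_zero, Polynomial.aeval_def, Polynomial.hom_eval₂] at h1
  rw [Polynomial.aeval_def, Polynomial.eval₂_map]
  exact h1

/-- PROOF. Let `Z₁` be the (finite) type of the `z` for which `S z` has a free point, and choose `o, κ, α, β, γ, δ` for them. `A' = A ⊔ Algebra.adjoin ℤ T` (finitely generated: `Subalgebra.FG.sup`), `T` = the finite set of the `α_z, β_z, γ_z, δ_z` and of the
`b_(z,i) = (α_z a_i + β_z) / (γ_z a_i + δ_z)`, `i ∈ S z`. `c` = the product of `b`, of all `a_(z,i) - a_(z,j)` for `i ≠ j`, of the `α_z δ_z - β_z γ_z` and of the `γ_z a_i + δ_z`, `i ∈ S z`; `c ≠ 0` in `A'`. `MPadc574M.exists_prime_transcendental` (Pool/Agent/Lib/MP_adc574_ag_M/Tr.lean) for the ring `A'`,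
the index type `Z₁`, `w z` = the `b_(z,i)`, `i ∈ S z`, `i ≠ o` (as a `Finset` of `A'`) and `u z = b_(z,o)`, transcendental over `adjoin ℤ (w z)` because it is transcendental over `κ_z` and `w z` is in `κ_z` (see `MPadc574M.transcendental_adjoin_of_map` in Pool/Agent/Lib/MP_adc574_ag_M/Free.lean; copy it) gives
`N` and for large `p` the prime `Q'` of `A'`; `Q = Q'.comap (inclusion)`. The determinant in `A` maps to the one in `A'` (`gg_map`, `det_hw_map`), which is not in `Q'` by `det_notMem_few`, `det_notMem_free` (`N ≥ 3`). -/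
theorem exists_generic {k : Type u} [Field k] [CharZero k] (A : Subalgebra ℤ k) (hA : A.FG)
    {Z : Type} [Finite Z] (n : Z → ℕ) (a : ∀ z, Fin (n z + 1) → A)
    (hinj : ∀ z, Function.Injective (a z)) (S : ∀ z, Finset (Fin (n z + 1)))
    (hS : ∀ z, (S z).card ≤ 3 ∨
      ∃ o ∈ S z, Free (fun i => ((a z i : A) : k)) {i | i ≠ o ∧ i ∈ S z} o) (b : A) (hb : b ≠ 0) :
    ∃ N : ℕ, ∀ p : ℕ, p.Prime → N < p → ∃ Q : Ideal A, Q.IsPrime ∧ (p : A) ∈ Q ∧ b ∉ Q ∧
      ∀ (z : Z) (μ : Fin (n z + 1) → ℕ) (m : ℕ), (∀ i, i ∈ S z ↔ 0 < μ i) → (∀ i, μ i + 1 < p) →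
        ∑ i, μ i = m * (p - 1) → (∀ i ∈ S z, n z + 1 ≤ μ i ∧ μ i + (n z + 1) ≤ p) →
          (hw p m (gg (a z) μ)).det ∉ Q := by
  classical
  have hfZ := Fintype.ofFinite Z
  let Z₁ := {z : Z // ∃ o ∈ S z, Free (fun i => ((a z i : A) : k)) {i | i ≠ o ∧ i ∈ S z} o}
  have hfZ₁ : Fintype Z₁ := Fintype.ofFinite Z₁
  have hZ₁ : ∀ z : Z₁, ∃ (o : Fin (n z.1 + 1)) (κ : Subfield k) (α β γ δ : k), o ∈ S z.1 ∧
      α * δ - β * γ ≠ 0 ∧ γ * (a z.1 o : k) + δ ≠ 0 ∧
      Transcendental κ ((α * (a z.1 o : k) + β) / (γ * (a z.1 o : k) + δ)) ∧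
      ∀ i, i ≠ o → i ∈ S z.1 → γ * (a z.1 i : k) + δ ≠ 0 ∧
        (α * (a z.1 i : k) + β) / (γ * (a z.1 i : k) + δ) ∈ κ := by
    rintro ⟨z, o, ho, κ, α, β, γ, δ, h1, h2, h3, h4⟩
    exact ⟨o, κ, α, β, γ, δ, ho, h1, h2, h3, fun i hi hiS => h4 i ⟨hi, hiS⟩⟩
  choose o κ α β γ δ ho hΔ hden htr hS' using hZ₁
  have hdenS : ∀ (z : Z₁) (i : Fin (n z.1 + 1)), i ∈ S z.1 → γ z * (a z.1 i : k) + δ z ≠ 0 := by
    intro z i hi
    by_cases hio : i = o z
    · rw [hio]
      exact hden z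
    · exact (hS' z i hio hi).1
  let bb : ∀ z : Z₁, Fin (n z.1 + 1) → k := fun z i =>
    (α z * (a z.1 i : k) + β z) / (γ z * (a z.1 i : k) + δ z)
  let T : Set k := ⋃ z : Z₁, (({α z, β z, γ z, δ z} : Set k) ∪ Set.range (bb z))
  have hTfin : T.Finite := Set.finite_iUnion (fun z => (Set.toFinite _).union (Set.finite_range _))
  let A' : Subalgebra ℤ k := A ⊔ Algebra.adjoin ℤ T
  have hA' : A'.FG := by
    refine hA.sup ?_
    rw [← hTfin.coe_toFinset]
    exact Subalgebra.fg_adjoin_finset _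
  have hft : Algebra.FiniteType ℤ A' := (Subalgebra.fg_iff_finiteType A').1 hA'
  have hchar : CharZero A' := by
    refine ⟨fun x y hxy => ?_⟩
    have h1 := congrArg (fun x : A' => (x : k)) hxy
    simpa using h1
  let φ : A →+* A' := (Subalgebra.inclusion (le_sup_left : A ≤ A')).toRingHom
  have hφ : ∀ x : A, ((φ x : A') : k) = (x : k) := fun _ => rfl
  have hT : ∀ x ∈ T, x ∈ A' := fun x hx =>
    (le_sup_right : Algebra.adjoin ℤ T ≤ A') (Algebra.subset_adjoin hx)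
  have hαm : ∀ z, α z ∈ A' := fun z => hT _ (Set.mem_iUnion.2 ⟨z, Or.inl (by simp)⟩)
  have hβm : ∀ z, β z ∈ A' := fun z => hT _ (Set.mem_iUnion.2 ⟨z, Or.inl (by simp)⟩)
  have hγm : ∀ z, γ z ∈ A' := fun z => hT _ (Set.mem_iUnion.2 ⟨z, Or.inl (by simp)⟩)
  have hδm : ∀ z, δ z ∈ A' := fun z => hT _ (Set.mem_iUnion.2 ⟨z, Or.inl (by simp)⟩)
  have hbm : ∀ z i, bb z i ∈ A' := fun z i => hT _ (Set.mem_iUnion.2 ⟨z, Or.inr ⟨i, rfl⟩⟩)
  let α' : Z₁ → A' := fun z => ⟨α z, hαm z⟩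
  let β' : Z₁ → A' := fun z => ⟨β z, hβm z⟩
  let γ' : Z₁ → A' := fun z => ⟨γ z, hγm z⟩
  let δ' : Z₁ → A' := fun z => ⟨δ z, hδm z⟩
  let b' : ∀ z : Z₁, Fin (n z.1 + 1) → A' := fun z i => ⟨bb z i, hbm z i⟩
  let c1 : A' := ∏ z : Z, ∏ i : Fin (n z + 1), ∏ j : Fin (n z + 1),
    if i = j then 1 else φ (a z i) - φ (a z j)
  let c2 : A' := ∏ z : Z₁, (α' z * δ' z - β' z * γ' z)
  let c3 : A' := ∏ z : Z₁, ∏ i ∈ S z.1, (γ' z * φ (a z.1 i) + δ' z)
  have hc1 : c1 ≠ 0 := by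
    refine Finset.prod_ne_zero_iff.2 fun z _ => Finset.prod_ne_zero_iff.2 fun i _ =>
      Finset.prod_ne_zero_iff.2 fun j _ => ?_
    split_ifs with hij
    · exact one_ne_zero
    · intro h0
      apply hij
      apply hinj z
      have h1 := congrArg (fun x : A' => (x : k)) h0
      apply Subtype.ext
      have h2 : ((a z i : A) : k) - ((a z j : A) : k) = 0 := h1
      exact sub_eq_zero.1 h2
  have hc2 : c2 ≠ 0 := by
    refine Finset.prod_ne_zero_iff.2 fun z _ => ?_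
    intro h0
    exact hΔ z (congrArg (fun x : A' => (x : k)) h0)
  have hc3 : c3 ≠ 0 := by
    refine Finset.prod_ne_zero_iff.2 fun z _ => Finset.prod_ne_zero_iff.2 fun i hi => ?_
    intro h0
    exact hdenS z i hi (congrArg (fun x : A' => (x : k)) h0)
  have hb0 : φ b ≠ 0 := by
    intro h0
    apply hb
    apply Subtype.ext
    exact congrArg (fun x : A' => (x : k)) h0
  let w : Z₁ → Finset A' := fun z => ((S z.1).filter (fun i => i ≠ o z)).image (b' z)
  have hu : ∀ z : Z₁, Transcendental (Algebra.adjoin ℤ (w z : Set A')) (b' z (o z)) := by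
    intro z
    refine SB2_trans A' (κ z) _ ?_ _ (htr z)
    intro x hx
    have hx' : x ∈ w z := hx
    rw [Finset.mem_image] at hx'
    obtain ⟨i, hi, rfl⟩ := hx'
    rw [Finset.mem_filter] at hi
    exact (hS' z i hi.2 hi.1).2
  obtain ⟨N, hN⟩ := MPadc574M.exists_prime_transcendental w (fun z => b' z (o z)) hu
    (φ b * (c1 * (c2 * c3))) (mul_ne_zero hb0 (mul_ne_zero hc1 (mul_ne_zero hc2 hc3)))
  refine ⟨N + 3, fun p hp hNp => ?_⟩
  obtain ⟨Q', hQ', hpQ', hcQ', htrQ⟩ := hN p hp (by omega)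
  have hfact : Fact p.Prime := ⟨hp⟩
  have hbQ : φ b ∉ Q' := fun h => hcQ' (Q'.mul_mem_right _ h)
  have hc1Q : c1 ∉ Q' := fun h => hcQ' (Q'.mul_mem_left _ (Q'.mul_mem_right _ h))
  have hc2Q : c2 ∉ Q' := fun h =>
    hcQ' (Q'.mul_mem_left _ (Q'.mul_mem_left _ (Q'.mul_mem_right _ h)))
  have hc3Q : c3 ∉ Q' := fun h =>
    hcQ' (Q'.mul_mem_left _ (Q'.mul_mem_left _ (Q'.mul_mem_left _ h)))
  have haQ : ∀ (z : Z) (i j : Fin (n z + 1)), i ≠ j → φ (a z i) - φ (a z j) ∉ Q' := by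
    intro z i j hij h
    apply hc1Q
    apply Q'.mem_of_dvd (Finset.dvd_prod_of_mem _ (Finset.mem_univ z))
    apply Q'.mem_of_dvd (Finset.dvd_prod_of_mem _ (Finset.mem_univ i))
    apply Q'.mem_of_dvd (Finset.dvd_prod_of_mem _ (Finset.mem_univ j))
    rw [if_neg hij]
    exact h
  have hΔQ : ∀ z : Z₁, α' z * δ' z - β' z * γ' z ∉ Q' := by
    intro z h
    apply hc2Q
    exact Q'.mem_of_dvd (Finset.dvd_prod_of_mem _ (Finset.mem_univ z)) h
  have hdenQ : ∀ (z : Z₁) (i : Fin (n z.1 + 1)), i ∈ S z.1 →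
      γ' z * φ (a z.1 i) + δ' z ∉ Q' := by
    intro z i hi h
    apply hc3Q
    apply Q'.mem_of_dvd (Finset.dvd_prod_of_mem _ (Finset.mem_univ z))
    exact Q'.mem_of_dvd (Finset.dvd_prod_of_mem (fun i => γ' z * φ (a z.1 i) + δ' z) hi) h
  refine ⟨Q'.comap φ, Ideal.comap_isPrime φ Q', ?_, hbQ, ?_⟩
  · rw [Ideal.mem_comap, map_natCast]
    exact hpQ'
  intro z μ m hSμ hμp hm hμS
  have key : (hw p m (gg (fun i => φ (a z i)) μ)).det ∉ Q' := by
    rcases hS z with h3 | hfree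
    · exact det_notMem_few Q' hpQ' (fun i => φ (a z i)) (haQ z) (S z) h3 μ hSμ hμp m hm
        (by omega)
    · let t : Z₁ := ⟨z, hfree⟩
      have hbo := hμS (o t) (ho t)
      refine det_notMem_free Q' hpQ' (fun i => φ (a z i)) (haQ z) (S z) (o t) (ho t) (α' t) (β' t)
        (γ' t) (δ' t) (hΔQ t) (b' t) (hdenQ t) ?_ (w t) ?_ (htrQ t) μ hSμ hμp m hm hbo.1 hbo.2
      · intro i hi
        apply Subtype.ext
        show (α t * (a z i : k) + β t) / (γ t * (a z i : k) + δ t) *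
          (γ t * (a z i : k) + δ t) = α t * (a z i : k) + β t
        exact div_mul_cancel₀ _ (hdenS t i hi)
      · intro i hi hio
        exact Finset.mem_image_of_mem _ (Finset.mem_filter.2 ⟨hi, hio⟩)
  intro hdet
  apply key
  rw [Ideal.mem_comap, ← det_hw_map, gg_map] at hdet
  exact hdet

end MPadcCA
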