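import Pool.Agent.Lib.MP_adc574_ag_CC.S1
import Pool.Agent.Lib.MP_adc574_ag_CA.GG
import Pool.Agent.Lib.MP_adc574_ag_CA.SB2

/-!
# Leaf SC: dense ordinary reduction
-/

set_option autoImplicit false

namespace MPadcCA

open Polynomial MPadcCC

universe u

private theorem SC_expo_mod {A : Type u} (c : AbCover A) (χ : Fin c.r → ℕ) (i : Fin (c.n + 1)) :
    c.expo (fun j => χ j % c.m) i = c.expo χ i := by
  unfold AbCover.expo
  have h : ∀ s : Finset (Fin c.r), (∑ j ∈ s, χ j % c.m * c.e j i) ≡ ∑ j ∈ s, χ j * c.e j i [MOD c.m] := by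
    intro s
    induction s using Finset.cons_induction with
    | empty => exact Nat.ModEq.refl _
    | cons a s ha ih =>
      rw [Finset.sum_cons, Finset.sum_cons]
      exact Nat.ModEq.add ((Nat.mod_modEq (χ a) c.m).mul_right _) ih
  exact h Finset.univ

/-- PROOF. Model: `dense_ordinary` of leaf S4 of the folder MP_adc574_ag_CC. The characters may be taken in `Fin r → Fin m` (`expo χ` depends only on the `χ j % m`). `Z = Σ l, (Fin (c l).r → Fin (c l).m)` (finite; in `Type`), `n z = (c l).n`, `a z = (c l).a`, `S z` = the set of the `i` with `expo χ i ≠ 0`.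
`exists_generic` for the product of `b` and of all the differences `(c l).a i - (c l).a j`, `i ≠ j`, gives `N`; take `p` larger than `N` and than all `m_l * (n_l + 3)`, `p = m_l M_l + 1`, so `M_l ≥ n_l + 2`. For every `z` the determinant `D_z` for `μ i = M_l * expo χ i`, `m = (∑ expo χ i) / m_l` is not in `Q`
(`∑ μ i = M (∑ expo χ i) = ((∑ expo χ i) / m) (p - 1)`, `weak_cyc`; `n + 1 ≤ M ≤ μ i` for `i ∈ S`, `μ i ≤ M (m - 1) = p - 1 - M`). `exists_closed` (leaf S1 of the folder MP_adc574_ag_CC) for the product of `b`, the differences and the `D_z`: `φ : A → E`. `isOrdinary_of_det'` for `(c l).map φ` (`gg_map`, `det_hw_map`; `expo` does not depend on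
the points; `((c l).map φ).Ok`); `(m_l : E) ≠ 0` as `p = m_l M_l + 1`. -/
theorem dense_ordinary' {k : Type u} [Field k] [CharZero k] (A : Subalgebra ℤ k) (hA : A.FG)
    {ι : Type} [Finite ι] (c : ι → AbCover A) (hc : ∀ l, (c l).Ok)
    (hfree : ∀ l, ((c l).map (Subtype.val : A → k)).FewOrFree) : DenseOrdinaryReduction c := by
  classical
  intro b hb
  have hfin : Fintype ι := Fintype.ofFinite ι
  have hft : Algebra.FiniteType ℤ A := (Subalgebra.fg_iff_finiteType A).1 hA
  let Z : Type := (l : ι) × (Fin (c l).r → Fin (c l).m)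
  let χ : ∀ z : Z, Fin (c z.1).r → ℕ := fun z j => (z.2 j : ℕ)
  let S : ∀ z : Z, Finset (Fin ((c z.1).n + 1)) := fun z =>
    Finset.univ.filter fun i => (c z.1).expo (χ z) i ≠ 0
  have hmS : ∀ (z : Z) i, i ∈ S z ↔ (c z.1).expo (χ z) i ≠ 0 := fun z i => by
    simp only [S, Finset.mem_filter, Finset.mem_univ, true_and]
  let cc : A := b * ∏ l, ∏ i, ∏ j, if i = j then (1 : A) else (c l).a i - (c l).a j
  have hcc : cc ≠ 0 := by
    refine mul_ne_zero hb ?_
    refine Finset.prod_ne_zero_iff.2 fun l _ => Finset.prod_ne_zero_iff.2 fun i _ =>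
      Finset.prod_ne_zero_iff.2 fun j _ => ?_
    by_cases hij : i = j
    · rw [if_pos hij]
      exact one_ne_zero
    · rw [if_neg hij]
      exact sub_ne_zero.2 fun e => hij ((hc l).inj e)
  have hdvd : ∀ l i j, i ≠ j → (c l).a i - (c l).a j ∣ cc := by
    intro l i j hij
    refine Dvd.dvd.mul_left ?_ b
    refine dvd_trans ?_ (Finset.dvd_prod_of_mem _ (Finset.mem_univ l))
    refine dvd_trans ?_ (Finset.dvd_prod_of_mem _ (Finset.mem_univ i))
    refine dvd_trans ?_ (Finset.dvd_prod_of_mem _ (Finset.mem_univ j))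
    rw [if_neg hij]
  have hdvb : b ∣ cc := Dvd.intro _ rfl
  have hSc : ∀ z : Z, (S z).card ≤ 3 ∨
      ∃ o ∈ S z, Free (fun i => (((c z.1).a i : A) : k)) {i | i ≠ o ∧ i ∈ S z} o := by
    intro z
    rcases hfree z.1 (χ z) with h | ⟨o, ho, h⟩
    · exact Or.inl h
    · obtain ⟨κ, α, β, γ, δ, g1, g2, g3, g4⟩ := h
      exact Or.inr ⟨o, (hmS z o).2 ho, κ, α, β, γ, δ, g1, g2, g3, fun i hi =>
        g4 i ⟨hi.1, (hmS z i).1 hi.2⟩⟩
  obtain ⟨N, hN⟩ := exists_generic (Z := Z) A hA (fun z => (c z.1).n) (fun z => (c z.1).a)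
    (fun z => (hc z.1).inj) S hSc cc hcc
  refine ⟨N + ∑ l, (c l).m * ((c l).n + 3), fun p hp hlt hmod => ?_⟩
  have hF : Fact p.Prime := ⟨hp⟩
  obtain ⟨Q, hQ, hpQ, hcQ, hd⟩ := hN p hp (by omega)
  have hM : ∀ l, ∃ M, p = (c l).m * M + 1 ∧ (c l).n + 3 ≤ M := by
    intro l
    obtain ⟨M, hM⟩ := (Nat.modEq_iff_dvd' hp.one_lt.le).1 (hmod l).symm
    have h2 : (c l).m * ((c l).n + 3) ≤ ∑ l, (c l).m * ((c l).n + 3) :=
      Finset.single_le_sum (f := fun l => (c l).m * ((c l).n + 3)) (fun _ _ => Nat.zero_le _) (Finset.mem_univ l)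
    have hp1 := hp.one_lt
    refine ⟨M, by omega, ?_⟩
    have h3 : (c l).m * ((c l).n + 3) ≤ (c l).m * M := by omega
    have he : 0 < (c l).m := by
      have := (hc l).two
      omega
    exact Nat.le_of_mul_le_mul_left h3 he
  choose M hpM hnM using hM
  have hD : ∀ z : Z, (hw p ((∑ i, (c z.1).expo (χ z) i) / (c z.1).m)
      (gg (c z.1).a fun i => M z.1 * (c z.1).expo (χ z) i)).det ∉ Q := by
    intro z
    have hMl := hnM z.1
    have hM0 : 0 < M z.1 := by omega
    have hw0 := weak_cyc (c z.1) (hc z.1) (χ z)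
    have hlt' : ∀ i, (c z.1).expo (χ z) i + 1 ≤ (c z.1).m := fun i => hw0.lt i
    have hmul : ∀ i, M z.1 * (c z.1).expo (χ z) i + M z.1 ≤ (c z.1).m * M z.1 := by
      intro i
      calc M z.1 * (c z.1).expo (χ z) i + M z.1 = M z.1 * ((c z.1).expo (χ z) i + 1) := by ring
        _ ≤ M z.1 * (c z.1).m := Nat.mul_le_mul_left _ (hlt' i)
        _ = (c z.1).m * M z.1 := mul_comm _ _
    have hp2 := hpM z.1
    refine hd z (fun i => M z.1 * (c z.1).expo (χ z) i) _ ?_ ?_ ?_ ?_
    · intro i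
      rw [hmS]
      constructor
      · intro h
        exact Nat.mul_pos hM0 (Nat.pos_of_ne_zero h)
      · intro h h0
        rw [h0, mul_zero] at h
        exact lt_irrefl _ h
    · intro i
      have := hmul i
      omega
    · have h7 : p - 1 = (c z.1).m * M z.1 := by omega
      have h8 : (c z.1).m ∣ ∑ i, (c z.1).expo (χ z) i := hw0.dvd
      rw [← Finset.mul_sum, h7]
      calc M z.1 * ∑ i, (c z.1).expo (χ z) i =
          M z.1 * ((∑ i, (c z.1).expo (χ z) i) / (c z.1).m * (c z.1).m) := by rw [Nat.div_mul_cancel h8]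
        _ = _ := by ring
    · intro i hi
      have h9 : 1 ≤ (c z.1).expo (χ z) i := Nat.one_le_iff_ne_zero.2 ((hmS z i).1 hi)
      have h10 : M z.1 * 1 ≤ M z.1 * (c z.1).expo (χ z) i := Nat.mul_le_mul_left _ h9
      have := hmul i
      constructor
      · omega
      · omega
  have hZ : Finite Z := by
    change Finite ((l : ι) × (Fin (c l).r → Fin (c l).m))
    infer_instance
  have hZ' : Fintype Z := Fintype.ofFinite Z
  let DD : Z → A := fun z => (hw p ((∑ i, (c z.1).expo (χ z) i) / (c z.1).m)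
      (gg (c z.1).a fun i => M z.1 * (c z.1).expo (χ z) i)).det
  have hddQ : cc * ∏ z, DD z ∉ Q := by
    intro h
    rcases hQ.mem_or_mem h with h | h
    · exact hcQ h
    · obtain ⟨z, _, h⟩ := Ideal.IsPrime.prod_mem_iff.1 h
      exact hD z h
  obtain ⟨E, _, φ, hE, hchar, hsurj, hφ⟩ := exists_closed Q hQ hp hpQ (cc * ∏ z, DD z) hddQ
  rw [map_mul] at hφ
  have hφcc : φ cc ≠ 0 := left_ne_zero_of_mul hφ
  have hφdd : φ (∏ z, DD z) ≠ 0 := right_ne_zero_of_mul hφ
  have hnz : ∀ z : A, z ∣ cc → φ z ≠ 0 := by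
    rintro z ⟨w, hw'⟩ hz
    apply hφcc
    rw [hw', map_mul, hz, zero_mul]
  have hinj : ∀ l, Function.Injective ((c l).map φ).a := by
    intro l i j hij
    by_contra hne
    refine hnz _ (hdvd l i j hne) ?_
    rw [map_sub]
    exact sub_eq_zero.2 hij
  have hm0 : ∀ l, ((c l).m : E) ≠ 0 := by
    intro l h
    have h1 : ((p : ℕ) : E) = 0 := CharP.cast_eq_zero E p
    rw [hpM l, Nat.cast_add, Nat.cast_mul, h, zero_mul, zero_add, Nat.cast_one] at h1
    exact one_ne_zero h1
  refine ⟨E, inferInstance, φ, hE, hchar, hsurj, hnz b hdvb, fun l => ⟨hm0 l, hinj l, ?_⟩⟩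
  have hok : ((c l).map φ).Ok := ⟨(hc l).two, hinj l, (hc l).dvd⟩
  have hn : ((c l).map φ).n + 1 ≤ p := by
    have h3 := (hc l).two
    have h4 := hnM l
    have h5 := hpM l
    have h6 : 2 * M l ≤ (c l).m * M l := Nat.mul_le_mul_right _ h3
    change (c l).n + 1 ≤ p
    omega
  refine isOrdinary_of_det' ((c l).map φ) hok (M := M l) (hpM l) hn fun ψ => ?_
  have hmpos : 0 < (c l).m := by
    have := (hc l).two
    omega
  let z : Z := ⟨l, fun j => ⟨ψ j % (c l).m, Nat.mod_lt _ hmpos⟩⟩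
  have he : ∀ i, ((c l).map φ).expo ψ i = (c z.1).expo (χ z) i := fun i =>
    (SC_expo_mod (c l) ψ i).symm
  have e1 : (gg ((c l).map φ).a fun i => M l * ((c l).map φ).expo ψ i) =
      (gg (c z.1).a fun i => M z.1 * (c z.1).expo (χ z) i).map φ := by
    rw [gg_map]
    exact congrArg _ (funext fun i => by rw [he i])
  have e2 : (∑ i, ((c l).map φ).expo ψ i) / ((c l).map φ).m =
      (∑ i, (c z.1).expo (χ z) i) / (c z.1).m := by
    have e3 : (∑ i, ((c l).map φ).expo ψ i) = ∑ i, (c z.1).expo (χ z) i :=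
      Finset.sum_congr rfl fun i _ => he i
    rw [e3]
    rfl
  rw [e1, e2, det_hw_map]
  intro hz
  apply hφdd
  have hdiv : DD z ∣ ∏ z, DD z := Finset.dvd_prod_of_mem _ (Finset.mem_univ z)
  obtain ⟨w, hw'⟩ := hdiv
  have hz' : φ (DD z) = 0 := hz
  rw [hw', map_mul, hz', zero_mul]

end MPadcCA
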